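import Mathlib

/-!
# A unimodular pair over a ring with an element of finite order

`A` is any ring, `a b : A`, `a ^ m = 1`, `N = 1 + a + ... + a ^ (m - 1)`, `x = 1 + a b - b a`,
`y = a - m + N`.  The left ideal generated by `(a - 1) x` and `y` is everything (`unimodular`).
-/

open Polynomial

namespace ExoGen

variable {A : Type*} [Ring A]

/-- `N = 1 + a + ... + a ^ (m - 1)` -/
def nn (m : ℕ) (a : A) : A := ∑ i ∈ Finset.range m, a ^ i

/-- `x = 1 + a b - b a` -/
def xx (a b : A) : A := 1 + a * b - b * a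

/-- `y = a - m + N` -/
def yy (m : ℕ) (a : A) : A := a - m + nn m a

/-- `M = 1 + m + ... + m ^ (m - 1)` -/
def mm (m : ℕ) : ℤ := ∑ i ∈ Finset.range m, (m : ℤ) ^ i

theorem nn_am1 {m : ℕ} {a : A} (ha : a ^ m = 1) : nn m a * (a - 1) = 0 := by
  unfold nn
  rw [geom_sum_mul, ha, sub_self]

theorem am1_nn {m : ℕ} {a : A} (ha : a ^ m = 1) : (a - 1) * nn m a = 0 := by
  unfold nn
  rw [mul_geom_sum, ha, sub_self]

theorem nn_mul_a {m : ℕ} {a : A} (ha : a ^ m = 1) : nn m a * a = nn m a := by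
  have h := nn_am1 ha
  rw [mul_sub, mul_one] at h
  exact sub_eq_zero.mp h

theorem a_mul_nn {m : ℕ} {a : A} (ha : a ^ m = 1) : a * nn m a = nn m a := by
  have h := am1_nn ha
  rw [sub_mul, one_mul] at h
  exact sub_eq_zero.mp h

theorem nn_mul_pow {m : ℕ} {a : A} (ha : a ^ m = 1) (i : ℕ) : nn m a * a ^ i = nn m a := by
  induction i with
  | zero => simp
  | succ i ih => rw [pow_succ, ← mul_assoc, ih, nn_mul_a ha]

theorem nn_mul_nn {m : ℕ} {a : A} (ha : a ^ m = 1) : nn m a * nn m a = m * nn m a := by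
  conv_lhs => rw [show nn m a * nn m a = nn m a * ∑ i ∈ Finset.range m, a ^ i from rfl]
  rw [Finset.mul_sum]
  simp only [nn_mul_pow ha]
  rw [Finset.sum_const, Finset.card_range, nsmul_eq_mul]

theorem nn_yy {m : ℕ} {a : A} (ha : a ^ m = 1) : nn m a * yy m a = nn m a := by
  unfold yy
  rw [mul_add, mul_sub, nn_mul_a ha, nn_mul_nn ha, (Nat.cast_commute m (nn m a)).eq]
  abel

theorem yy_nn {m : ℕ} {a : A} (ha : a ^ m = 1) : yy m a * nn m a = nn m a := by
  unfold yy
  rw [add_mul, sub_mul, a_mul_nn ha, nn_mul_nn ha]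
  abel

theorem xx_eq (m : ℕ) (a b : A) : xx a b = 1 + (a - m) * b - b * (a - m) := by
  unfold xx
  rw [sub_mul, mul_sub, (Nat.cast_commute m b).eq]
  abel

theorem isCoprime_m (m : ℕ) (hm : 1 ≤ m) : IsCoprime (m : ℤ) (mm m) := by
  obtain ⟨k, rfl⟩ := Nat.exists_eq_add_of_le' hm
  unfold mm
  rw [Finset.sum_range_succ']
  simp only [pow_succ, pow_zero]
  rw [← Finset.sum_mul]
  refine ⟨-(∑ i ∈ Finset.range k, ((k + 1 : ℕ) : ℤ) ^ i), 1, ?_⟩
  ring

theorem isCoprime_m1 (m : ℕ) : IsCoprime ((m : ℤ) - 1) (mm m) := by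
  have h : ((m : ℤ) - 1) ∣ mm m - 1 := by
    have h1 : ((m : ℤ) - 1) ∣ mm m - m := by
      have : mm m - m = ∑ i ∈ Finset.range m, ((m : ℤ) ^ i - 1) := by
        rw [Finset.sum_sub_distrib]
        simp [mm]
      rw [this]
      refine Finset.dvd_sum fun i _ => ?_
      simpa using sub_one_dvd_pow_sub_one (m : ℤ) i
    have h2 : mm m - 1 = (mm m - m) + (m - 1) := by ring
    rw [h2]
    exact dvd_add h1 (dvd_refl _)
  obtain ⟨c, hc⟩ := h
  refine ⟨-c, 1, ?_⟩
  linear_combination hc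

section Ideal

variable {m : ℕ} {a : A} (I : Ideal A)

theorem mem_of_coprime {u v : ℤ} (huv : IsCoprime u v) {z : A} (h1 : (u : A) * z ∈ I)
    (h2 : (v : A) * z ∈ I) : z ∈ I := by
  obtain ⟨p, q, hpq⟩ := huv
  have h3 : ((p : A) * ((u : A) * z) + (q : A) * ((v : A) * z)) = z := by
    rw [← mul_assoc, ← mul_assoc, ← add_mul]
    have : ((p : A) * u + (q : A) * v) = 1 := by
      exact_mod_cast congrArg (Int.cast : ℤ → A) hpq
    rw [this, one_mul]
  rw [← h3]
  exact I.add_mem (I.mul_mem_left _ h1) (I.mul_mem_left _ h2)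

theorem aeval_sub_mem (hI : a - m ∈ I) (p : ℤ[X]) :
    aeval a p - ((p.eval (m : ℤ) : ℤ) : A) ∈ I := by
  have hroot : (X - C (m : ℤ)) ∣ p - C (p.eval (m : ℤ)) := by
    rw [dvd_iff_isRoot, IsRoot, eval_sub, eval_C, sub_self]
  obtain ⟨q, hq⟩ := hroot
  rw [mul_comm] at hq
  have h := congrArg (aeval a) hq
  rw [map_sub, map_mul, map_sub, aeval_X, aeval_C, aeval_C] at h
  simp only [eq_intCast] at h
  have h' : aeval a p - ((p.eval (m : ℤ) : ℤ) : A) = aeval a q * (a - m) := by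
    simpa using h
  rw [h']
  exact I.mul_mem_left _ hI

end Ideal

theorem one_mem {m : ℕ} (hm : 1 ≤ m) {a : A} (b : A) (ha : a ^ m = 1) (I : Ideal A)
    (hx : (a - 1) * xx a b ∈ I) (hy : yy m a ∈ I) : (1 : A) ∈ I := by
  have hN : nn m a ∈ I := by
    rw [← nn_yy ha]
    exact I.mul_mem_left _ hy
  have hag : a - m ∈ I := by
    have : a - m = yy m a - nn m a := by
      unfold yy
      abel
    rw [this]
    exact I.sub_mem hy hN
  have hM : ((mm m : ℤ) : A) ∈ I := by
    have h := aeval_sub_mem I hag (∑ i ∈ Finset.range m, (X : ℤ[X]) ^ i)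
    have e1 : aeval a (∑ i ∈ Finset.range m, (X : ℤ[X]) ^ i) = nn m a := by
      simp [nn]
    have e2 : (∑ i ∈ Finset.range m, (X : ℤ[X]) ^ i).eval (m : ℤ) = mm m := by
      simp [mm, eval_finsetSum]
    rw [e1, e2] at h
    have : ((mm m : ℤ) : A) = nn m a - (nn m a - ((mm m : ℤ) : A)) := by abel
    rw [this]
    exact I.sub_mem hN h
  set z : A := (a - 1) * (a - m) * b with hz
  have hv : z + ((m : A) - 1) ∈ I := by
    have h1 : (a - 1) * xx a b + (a - 1) * b * (a - m) = (a - 1) + z := by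
      rw [xx_eq m, hz]
      noncomm_ring
    have h2 : (a - 1) + z ∈ I := by
      rw [← h1]
      exact I.add_mem hx (I.mul_mem_left _ hag)
    have h3 : z + ((m : A) - 1) = ((a - 1) + z) - (a - m) := by abel
    rw [h3]
    exact I.sub_mem h2 hag
  have hvz : (a - m) * z ∈ I := by
    have h1 : (a - m) * (z + ((m : A) - 1)) ∈ I := I.mul_mem_left _ hv
    have h2 : (a - (m : A)) * ((m : A) - 1) = ((m : A) - 1) * (a - m) := by
      have := (Nat.cast_commute m a).eq
      calc (a - (m : A)) * ((m : A) - 1) = a * m - m * m - a + m := by noncomm_ring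
        _ = m * a - m * m - a + m := by rw [this]
        _ = ((m : A) - 1) * (a - m) := by noncomm_ring
    have h3 : (a - m) * z = (a - m) * (z + ((m : A) - 1)) - ((m : A) - 1) * (a - m) := by
      rw [mul_add, h2]
      abel
    rw [h3]
    exact I.sub_mem h1 (I.mul_mem_left _ hag)
  -- the polynomial `Q = ∑ X ^ i m ^ (m - 1 - i)`
  set Q : ℤ[X] := ∑ i ∈ Finset.range m, (X : ℤ[X]) ^ i * (C (m : ℤ)) ^ (m - 1 - i) with hQ
  have hQ1 : Q * (X - C (m : ℤ)) = X ^ m - C (m : ℤ) ^ m := by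
    rw [hQ]
    exact (Commute.all _ _).geom_sum₂_mul m
  have hQa : aeval a Q * (a - m) = 1 - (m : A) ^ m := by
    have h := congrArg (aeval a) hQ1
    rw [map_mul, map_sub, map_sub, map_pow, map_pow, aeval_X, aeval_C, ha] at h
    simpa using h
  have hQe : Q.eval (m : ℤ) = (m : ℤ) ^ m := by
    rw [hQ, eval_finsetSum]
    have : ∀ i ∈ Finset.range m, ((X : ℤ[X]) ^ i * (C (m : ℤ)) ^ (m - 1 - i)).eval (m : ℤ)
        = (m : ℤ) ^ (m - 1) := by
      intro i hi
      have hi' := Finset.mem_range.mp hi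
      rw [eval_mul, eval_pow, eval_X, eval_pow, eval_C, ← pow_add]
      congr 1
      omega
    rw [Finset.sum_congr rfl this, Finset.sum_const, Finset.card_range, nsmul_eq_mul,
      ← pow_succ']
    congr 1
    omega
  have hgm : (1 - (m : A) ^ m) = -((m : A) - 1) * ((mm m : ℤ) : A) := by
    have : (m : ℤ) ^ m - 1 = ((m : ℤ) - 1) * mm m := by
      unfold mm
      rw [mul_geom_sum]
    have h := congrArg (Int.cast : ℤ → A) this
    push_cast at h
    rw [neg_mul, ← h]
    abel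
  have hcomm : Commute (aeval a Q) (a - 1) := by
    have h := Commute.all Q (X - 1)
    have h' := h.map (aeval a : ℤ[X] →ₐ[ℤ] A)
    simpa using h'
  have hQz : aeval a Q * z ∈ I := by
    have h1 : aeval a Q * z = (a - 1) * (-((m : A) - 1)) * b * ((mm m : ℤ) : A) := by
      have hc := (Int.cast_commute (mm m) b).eq
      calc aeval a Q * z = (aeval a Q * (a - 1)) * (a - m) * b := by
            rw [hz]; noncomm_ring
        _ = (a - 1) * (aeval a Q * (a - m)) * b := by rw [hcomm.eq]; noncomm_ring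
        _ = (a - 1) * (-((m : A) - 1)) * (((mm m : ℤ) : A) * b) := by
            rw [hQa, hgm]; simp only [mul_assoc]
        _ = _ := by rw [hc]; simp only [mul_assoc]
    rw [h1]
    exact I.mul_mem_left _ hM
  have hQgz : (((m : ℤ) ^ m : ℤ) : A) * z ∈ I := by
    have hroot : (X - C (m : ℤ)) ∣ Q - C (Q.eval (m : ℤ)) := by
      rw [dvd_iff_isRoot, IsRoot, eval_sub, eval_C, sub_self]
    obtain ⟨q, hq⟩ := hroot
    rw [mul_comm] at hq
    have h := congrArg (aeval a) hq
    rw [map_sub, map_mul, map_sub, aeval_X, aeval_C, aeval_C, hQe] at h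
    have h' : aeval a Q - (((m : ℤ) ^ m : ℤ) : A) = aeval a q * (a - m) := by
      simpa using h
    have h3 : (((m : ℤ) ^ m : ℤ) : A) * z = aeval a Q * z - aeval a q * ((a - m) * z) := by
      have h4 : aeval a q * ((a - m) * z) = (aeval a q * (a - m)) * z := by
        rw [mul_assoc]
      rw [h4, ← h', sub_mul]
      abel
    rw [h3]
    exact I.sub_mem hQz (I.mul_mem_left _ hvz)
  have hMz : ((mm m : ℤ) : A) * z ∈ I := by
    rw [(Int.cast_commute (mm m) z).eq]
    exact I.mul_mem_left _ hM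
  have hzI : z ∈ I := mem_of_coprime I ((isCoprime_m m hm).pow_left) hQgz hMz
  have hg1 : ((((m : ℤ) - 1 : ℤ)) : A) ∈ I := by
    have : ((((m : ℤ) - 1 : ℤ)) : A) = (z + ((m : A) - 1)) - z := by
      push_cast
      abel
    rw [this]
    exact I.sub_mem hv hzI
  refine mem_of_coprime I (isCoprime_m1 m) (z := 1) ?_ ?_
  · rw [mul_one]; exact hg1
  · rw [mul_one]; exact hM

theorem unimodular {m : ℕ} (hm : 1 ≤ m) {a : A} (b : A) (ha : a ^ m = 1) :
    ∃ P Q : A, P * (a - 1) * xx a b + Q * yy m a = 1 := by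
  have h := one_mem hm b ha (Ideal.span {(a - 1) * xx a b, yy m a})
    (Ideal.subset_span (by simp)) (Ideal.subset_span (by simp))
  obtain ⟨P, Q, hPQ⟩ := Submodule.mem_span_pair.mp h
  exact ⟨P, Q, by simpa [mul_assoc] using hPQ⟩

end ExoGen
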