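import Pool.Agent.Lib.MP_2d4659_gt.FP.FinDefs
import Pool.Agent.Lib.MP_2d4659_gt.EX.Ring

/-!
# Matrices over `ℤ[G]` as boundary maps

`G = Gp m` is the free product of the cyclic groups of orders `m j` (`0` means infinite).
A matrix over `ℤ[G]` gives a `k[G]`-linear map for every commutative ring `k`.
-/

set_option autoImplicit false

namespace ExoGen

open FP

variable {J : Type} {m : J → ℕ}

/-- the generator `a_j` in the group ring -/
noncomputable def ge (k : Type) [CommRing k] (m : J → ℕ) (j : J) : RG k m :=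
  MonoidAlgebra.single (gen m j) 1

/-- the ring homomorphism `ℤ[G] → k[G]` -/
noncomputable def ch (k : Type) [CommRing k] (m : J → ℕ) : RG ℤ m →+* RG k m :=
  MonoidAlgebra.mapRingHom (Gp m) (Int.castRingHom k)

/-- The `k[G]`-linear map `v ↦ v D` from `k[G]^n` to `k[G]^X` given by a matrix `D` over `ℤ[G]`. -/
noncomputable def matMap (k : Type) [CommRing k] {n X : Type} [Fintype n]
    (D : Matrix n X (RG ℤ m)) : (n → RG k m) →ₗ[RG k m] (X → RG k m) :=
  (D.map (ch k m)).vecMulLinear

/-- The map `d` on `A^n` after adding one free summand on which it is zero. -/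
def zc {A n M : Type} [Ring A] [AddCommGroup M] [Module A M] (d : (n → A) →ₗ[A] M) :
    (Option n → A) →ₗ[A] M :=
  d ∘ₗ LinearMap.funLeft A A (some : n → Option n)

open Classical in
/-- The matrix with the rows `N_j e_j` for the finite factors, `N_j = 1 + a_j + ... + a_j ^ (m j - 1)`,
and `e_y - ∑ j, v y j e_j` for `y : Y`. -/
noncomputable def stdM {Y n : Type} (e : n ≃ {j : J // m j ≠ 0} ⊕ Y) (v : Y → J → RG ℤ m) :
    Matrix n (J ⊕ Y) (RG ℤ m) :=
  fun r => match e r with
    | Sum.inl i => Sum.elim (Pi.single i.1 (nn (m i.1) (ge ℤ m i.1))) 0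
    | Sum.inr y => Sum.elim (-v y) (Pi.single y 1)

/-- `D` is the boundary matrix of the standard complex of the presentation with generators `a_j`, `z_y`
and relators `a_j ^ (m j)` (`m j ≠ 0`), `z_y W_y⁻¹`, where `W_y` is a word in the `a_j` for the element
`w y` of `G` (`v y j` are the Fox derivatives of this word). -/
def IsStd {Y n : Type} [Fintype J] (w : Y → Gp m) (D : Matrix n (J ⊕ Y) (RG ℤ m)) : Prop :=
  ∃ (e : n ≃ {j : J // m j ≠ 0} ⊕ Y) (v : Y → J → RG ℤ m),
    (∀ y, bd1 ℤ (gen m) (v y) = MonoidAlgebra.single (w y) 1 - 1) ∧ D = stdM e v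

/-- The sequence `k[G]^n → k[G]^X → k[G] → k`, with the maps `v ↦ v D`, `bd1` (`X = J + Y`,
`e_x ↦ x - 1`) and the augmentation, is exact at `k[G]^X` and at `k[G]`, for every commutative ring
`k`. -/
def ExactAll {Y n : Type} [Fintype J] [Fintype Y] [Fintype n] (w : Y → Gp m)
    (D : Matrix n (J ⊕ Y) (RG ℤ m)) : Prop :=
  ∀ (k : Type) [CommRing k], IsBd2 k (gX m w) (matMap k D) ∧
    ∀ x : RG k m, x ∈ LinearMap.range (bd1 k (gX m w)) ↔ MonoidAlgebra.lift k k (Gp m) 1 x = 0

/-- Over `k` the maps of `D` and `D'` differ by an automorphism of `k[G]^n`. -/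
def IsoOver (k : Type) [CommRing k] {n X : Type} [Fintype n] (D D' : Matrix n X (RG ℤ m)) : Prop :=
  LadderIso k (matMap k D) (matMap k D')

/-- Over `ℤ` the maps of `D` and `D'`, after adding one free summand on which they are zero, differ by
an automorphism. -/
def StablyIso {n X : Type} [Fintype n] (D D' : Matrix n X (RG ℤ m)) : Prop :=
  LadderIso ℤ (zc (matMap ℤ D)) (zc (matMap ℤ D'))

/-- The kernels of the maps of `D` and `D'` over `ℤ` are isomorphic `ℤ[G]`-modules. -/
def KerIso {n X : Type} [Fintype n] (D D' : Matrix n X (RG ℤ m)) : Prop :=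
  Nonempty (LinearMap.ker (matMap ℤ D) ≃ₗ[RG ℤ m] LinearMap.ker (matMap ℤ D'))

end ExoGen
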