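import Pool.Agent.Lib.MP_2d4659_gt.EX.Quat

/-!
# The cyclotomic order

`exists_O`: the ring of integers of the cyclotomic field of order `g ≥ 3`, with complex conjugation
and a large integer `D`, satisfies the hypotheses of `quat_contra`.
-/

open Polynomial NumberField

namespace ExoGen

section

variable (K : Type) [Field K] [NumberField K] [IsCMField K]

/-- complex conjugation on the ring of integers -/
noncomputable def cj : 𝓞 K →+* 𝓞 K := (IsCMField.ringOfIntegersComplexConj K : 𝓞 K →+* 𝓞 K)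

theorem cj_cj (x : 𝓞 K) : cj K (cj K x) = x := by
  apply RingOfIntegers.ext
  show (IsCMField.complexConj K (IsCMField.complexConj K (x : K))) = x
  exact IsCMField.complexConj_apply_apply K _

theorem emb_cj (φ : K →+* ℂ) (x : 𝓞 K) : φ ((cj K x : 𝓞 K) : K) = (starRingEnd ℂ) (φ (x : K)) :=
  IsCMField.complexEmbedding_complexConj K φ _

omit [IsCMField K] in
theorem norm_prod_emb (x : 𝓞 K) :
    |((Algebra.norm ℤ x : ℤ) : ℝ)| = ∏ σ : K →ₐ[ℚ] ℂ, ‖σ (x : K)‖ := by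
  have h := Algebra.norm_eq_prod_embeddings ℚ ℂ (x : K)
  rw [← Algebra.coe_norm_int] at h
  have h2 := congrArg (fun z : ℂ => ‖z‖) h
  simp only [norm_prod] at h2
  rw [← h2]
  simp

variable {K}

omit [IsCMField K] in
theorem norm_ne {x : 𝓞 K} (hx : x ≠ 0) : (1 : ℝ) ≤ |((Algebra.norm ℤ x : ℤ) : ℝ)| := by
  have h : Algebra.norm ℤ x ≠ 0 := by
    rw [Ne, Algebra.norm_eq_zero_iff]
    exact hx
  have h2 : (1 : ℤ) ≤ |Algebra.norm ℤ x| := Int.one_le_abs h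
  exact_mod_cast h2

theorem emb_nrd (σ : K →ₐ[ℚ] ℂ) (α β : 𝓞 K) (D : ℤ) :
    σ ((α * cj K α + D * β * cj K β : 𝓞 K) : K)
      = ((‖σ (α : K)‖ ^ 2 + D * ‖σ (β : K)‖ ^ 2 : ℝ) : ℂ) := by
  have h1 : σ ((cj K α : 𝓞 K) : K) = (starRingEnd ℂ) (σ (α : K)) :=
    emb_cj K (σ : K →+* ℂ) α
  have h2 : σ ((cj K β : 𝓞 K) : K) = (starRingEnd ℂ) (σ (β : K)) :=
    emb_cj K (σ : K →+* ℂ) β
  have e : ((α * cj K α + D * β * cj K β : 𝓞 K) : K)
      = (α : K) * ((cj K α : 𝓞 K) : K) + (D : K) * (β : K) * ((cj K β : 𝓞 K) : K) := by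
    simp
  rw [e, map_add, map_mul, map_mul, map_mul, h1, h2, Complex.mul_conj, mul_assoc,
    Complex.mul_conj, map_intCast]
  rw [Complex.normSq_eq_norm_sq, Complex.normSq_eq_norm_sq]
  push_cast
  rfl

theorem norm_ge (α β : 𝓞 K) {D : ℤ} (hD : 1 ≤ D) (hβ : β ≠ 0) :
    (D : ℝ) ≤ |((Algebra.norm ℤ (α * cj K α + D * β * cj K β) : ℤ) : ℝ)| := by
  have hDr : (1 : ℝ) ≤ (D : ℝ) := by exact_mod_cast hD
  rw [norm_prod_emb]
  have h1 : ∀ σ : K →ₐ[ℚ] ℂ, (D : ℝ) * ‖σ (β : K)‖ ^ 2 ≤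
      ‖σ ((α * cj K α + D * β * cj K β : 𝓞 K) : K)‖ := by
    intro σ
    rw [emb_nrd, Complex.norm_real, Real.norm_eq_abs]
    have h2 : 0 ≤ ‖σ (α : K)‖ ^ 2 := by positivity
    have h3 : 0 ≤ (D : ℝ) * ‖σ (β : K)‖ ^ 2 := by positivity
    rw [abs_of_nonneg (add_nonneg h2 h3)]
    linarith
  have h4 : (D : ℝ) ≤ ∏ σ : K →ₐ[ℚ] ℂ, ((D : ℝ) * ‖σ (β : K)‖ ^ 2) := by
    rw [Finset.prod_mul_distrib, Finset.prod_const, Finset.prod_pow, ← norm_prod_emb]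
    have h5 := norm_ne hβ
    have h6 : (1 : ℝ) ≤ |((Algebra.norm ℤ β : ℤ) : ℝ)| ^ 2 := one_le_pow₀ h5
    have hcard : 1 ≤ (Finset.univ : Finset (K →ₐ[ℚ] ℂ)).card := by
      rw [Finset.one_le_card]
      have : Nonempty (K →ₐ[ℚ] ℂ) :=
        (inferInstance : Nonempty (K →+* ℂ)).map fun φ => φ.toRatAlgHom
      exact Finset.univ_nonempty
    have h7 : (D : ℝ) ≤ (D : ℝ) ^ (Finset.univ : Finset (K →ₐ[ℚ] ℂ)).card :=
      le_self_pow₀ hDr (by omega)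
    nlinarith
  refine h4.trans (Finset.prod_le_prod (fun σ _ => by positivity) fun σ _ => h1 σ)

theorem nrd_contra {T : 𝓞 K} (hT : T ≠ 0) :
    ∃ D : ℤ, ∀ α β : 𝓞 K, (α * cj K α + D * β * cj K β) ∣ T → β = 0 := by
  refine ⟨|Algebra.norm ℤ T| + 1, fun α β hdvd => ?_⟩
  by_contra hβ
  set D : ℤ := |Algebra.norm ℤ T| + 1 with hD
  have hD1 : 1 ≤ D := by
    have := abs_nonneg (Algebra.norm ℤ T)
    omega
  have h1 := norm_ge α β hD1 hβ
  obtain ⟨k, hk⟩ := hdvd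
  have hk0 : k ≠ 0 := by
    rintro rfl
    rw [mul_zero] at hk
    exact hT hk
  have h2 := norm_ne hk0
  have h3 : |((Algebra.norm ℤ T : ℤ) : ℝ)| =
      |((Algebra.norm ℤ (α * cj K α + D * β * cj K β) : ℤ) : ℝ)|
        * |((Algebra.norm ℤ k : ℤ) : ℝ)| := by
    rw [← abs_mul, ← Int.cast_mul, ← map_mul, ← hk]
  have h4 : (D : ℝ) = |((Algebra.norm ℤ T : ℤ) : ℝ)| + 1 := by
    rw [hD]
    push_cast
    rfl
  have h5 : (0 : ℝ) ≤ |((Algebra.norm ℤ (α * cj K α + D * β * cj K β) : ℤ) : ℝ)| :=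
    abs_nonneg _
  nlinarith

end

theorem exists_O (g : ℕ) (hg : 3 ≤ g) : ∃ (O : Type) (_ : CommRing O) (_ : IsDomain O)
    (_ : CharZero O) (c : O →+* O) (_ : ∀ x, c (c x) = x) (D : ℤ) (ζ : O),
    ζ ^ g = 1 ∧ ∑ i ∈ Finset.range g, ζ ^ i = 0 ∧ ζ * c ζ = 1 ∧
    ∑ i ∈ Finset.range g, c ζ ^ i = 0 ∧ ∑ i ∈ Finset.range g, (c ζ ^ 2) ^ i = 0 ∧
    (∀ α β : O, (α * c α + D * β * c β) ∣
      ((mm g : ℤ) : O) ^ 2 * ((ζ - 1) * (c ζ - 1)) → β = 0) ∧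
    ¬ IsUnit (c ζ - (g : O)) ∧ ζ - (g : O) ≠ 0 := by
  have : NeZero g := ⟨by omega⟩
  let K := CyclotomicField g ℚ
  have : IsCyclotomicExtension {g} ℚ K := CyclotomicField.isCyclotomicExtension g ℚ
  have : NumberField K := IsCyclotomicExtension.numberField {g} ℚ K
  have : IsCMField K := IsCyclotomicExtension.Rat.isCMField K (S := {g}) ⟨g, rfl, by omega⟩
  have hz := IsCyclotomicExtension.zeta_spec g ℚ K
  set ζ : 𝓞 K := hz.toInteger with hζ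
  have hp : IsPrimitiveRoot ζ g := hz.toInteger_isPrimitiveRoot
  have hcinj : Function.Injective (cj K) := by
    intro x y hxy
    rw [← cj_cj K x, hxy, cj_cj]
  have hp' : IsPrimitiveRoot (cj K ζ) g := hp.map_of_injective hcinj
  have hnorm : ∀ φ : K →+* ℂ, ‖φ (ζ : K)‖ = 1 := by
    intro φ
    refine Complex.norm_eq_one_of_pow_eq_one (n := g) ?_ (by omega)
    rw [← map_pow]
    have : ((ζ : K)) ^ g = 1 := by
      have h := congrArg (fun z : 𝓞 K => (z : K)) hp.pow_eq_one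
      simpa using h
    rw [this, map_one]
  have hnorm' : ∀ φ : K →+* ℂ, ‖φ ((cj K ζ : 𝓞 K) : K)‖ = 1 := by
    intro φ
    rw [emb_cj, Complex.norm_conj]
    exact hnorm φ
  have hζc : ζ * cj K ζ = 1 := by
    apply RingOfIntegers.ext
    let φ : K →+* ℂ := Classical.choice (inferInstance : Nonempty (K →+* ℂ))
    apply φ.injective
    have e : ((ζ * cj K ζ : 𝓞 K) : K) = (ζ : K) * ((cj K ζ : 𝓞 K) : K) := by simp
    rw [e, map_mul, emb_cj, Complex.mul_conj, Complex.normSq_eq_norm_sq, hnorm φ]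
    simp
  have hne1 : ζ ≠ 1 := hp.ne_one (by omega)
  have hne1' : cj K ζ ≠ 1 := hp'.ne_one (by omega)
  have hne2 : (cj K ζ) ^ 2 ≠ 1 := by
    intro h
    have := (hp'.pow_eq_one_iff_dvd 2).mp h
    have := Nat.le_of_dvd (by omega) this
    omega
  have hM : ((mm g : ℤ) : 𝓞 K) ≠ 0 := by
    have : 0 < mm g := by
      unfold mm
      refine Finset.sum_pos (fun i _ => ?_) ⟨0, by simp; omega⟩
      have : (0 : ℤ) < g := by exact_mod_cast (by omega : 0 < g)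
      positivity
    exact_mod_cast this.ne'
  have hT : ((mm g : ℤ) : 𝓞 K) ^ 2 * ((ζ - 1) * (cj K ζ - 1)) ≠ 0 :=
    mul_ne_zero (pow_ne_zero _ hM) (mul_ne_zero (sub_ne_zero.mpr hne1) (sub_ne_zero.mpr hne1'))
  obtain ⟨D, hD⟩ := nrd_contra hT
  refine ⟨𝓞 K, inferInstance, inferInstance, inferInstance, cj K, cj_cj K, D, ζ, hp.pow_eq_one,
    hp.geom_sum_eq_zero (by omega), hζc, hp'.geom_sum_eq_zero (by omega), ?_, hD, ?_, ?_⟩
  · have h := mul_geom_sum ((cj K ζ) ^ 2) g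
    have h2 : ((cj K ζ) ^ 2) ^ g = 1 := by
      rw [← pow_mul, mul_comm, pow_mul, hp'.pow_eq_one, one_pow]
    rw [h2, sub_self] at h
    exact (mul_eq_zero.mp h).resolve_left (sub_ne_zero.mpr hne2)
  · intro hu
    have h1 : IsUnit (Algebra.norm ℤ (cj K ζ - (g : 𝓞 K))) := hu.map _
    have h2 : |((Algebra.norm ℤ (cj K ζ - (g : 𝓞 K)) : ℤ) : ℝ)| = 1 := by
      have := Int.isUnit_iff_abs_eq.mp h1
      exact_mod_cast this
    rw [norm_prod_emb] at h2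
    have h3 : ∀ σ : K →ₐ[ℚ] ℂ, (2 : ℝ) ≤ ‖σ ((cj K ζ - (g : 𝓞 K) : 𝓞 K) : K)‖ := by
      intro σ
      have e : ((cj K ζ - (g : 𝓞 K) : 𝓞 K) : K) = ((cj K ζ : 𝓞 K) : K) - (g : K) := by simp
      rw [e, map_sub, map_natCast]
      have h4 := norm_sub_norm_le (g : ℂ) (σ ((cj K ζ : 𝓞 K) : K))
      rw [norm_sub_rev] at h4
      have h5 : ‖σ ((cj K ζ : 𝓞 K) : K)‖ = 1 := hnorm' (σ : K →+* ℂ)
      rw [h5, Complex.norm_natCast] at h4
      have h6 : (3 : ℝ) ≤ g := by exact_mod_cast hg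
      linarith
    have h7 : (2 : ℝ) ≤ ∏ σ : K →ₐ[ℚ] ℂ, ‖σ ((cj K ζ - (g : 𝓞 K) : 𝓞 K) : K)‖ := by
      have hcard : 1 ≤ (Finset.univ : Finset (K →ₐ[ℚ] ℂ)).card := by
        rw [Finset.one_le_card]
        have : Nonempty (K →ₐ[ℚ] ℂ) :=
        (inferInstance : Nonempty (K →+* ℂ)).map fun φ => φ.toRatAlgHom
        exact Finset.univ_nonempty
      calc (2 : ℝ) ≤ 2 ^ (Finset.univ : Finset (K →ₐ[ℚ] ℂ)).card :=
            le_self_pow₀ (by norm_num) (by omega)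
        _ = ∏ _σ : K →ₐ[ℚ] ℂ, (2 : ℝ) := by rw [Finset.prod_const]
        _ ≤ _ := Finset.prod_le_prod (fun _ _ => by norm_num) fun σ _ => h3 σ
    linarith
  · intro h
    let φ : K →+* ℂ := Classical.choice (inferInstance : Nonempty (K →+* ℂ))
    have h1 := hnorm φ
    rw [sub_eq_zero.mp h] at h1
    have e : (((g : 𝓞 K)) : K) = (g : K) := by simp
    rw [e, map_natCast, Complex.norm_natCast] at h1
    have h6 : (3 : ℝ) ≤ g := by exact_mod_cast hg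
    linarith

end ExoGen
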