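import Pool.Agent.Lib.MP_2d4659_gt.EX.NoIso

/-!
# The final theorem
-/

set_option autoImplicit false

namespace ExoGen

open FP

section

variable {J : Type} {m : J → ℕ} {Y n : Type} [Fintype J] [Fintype Y] [Fintype n]

theorem aug_bd1 {X : Type} [Fintype X] (k : Type) [CommRing k] (g : X → Gp m) (v : X → RG k m) :
    aug k m (bd1 k g v) = 0 := by
  show aug k m (∑ x, v x * (MonoidAlgebra.single (g x) 1 - 1)) = 0
  rw [map_sum]
  refine Finset.sum_eq_zero fun x _ => ?_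
  rw [map_mul, map_sub, aug_single, map_one, sub_self, mul_zero]

/-- exactness in degree zero -/
theorem range_bd1 (k : Type) [CommRing k] (w : Y → Gp m) (x : RG k m) :
    x ∈ LinearMap.range (bd1 k (gX m w)) ↔ MonoidAlgebra.lift k k (Gp m) 1 x = 0 := by
  constructor
  · rintro ⟨v, rfl⟩
    exact aug_bd1 k _ v
  · intro h
    have h1 := mem_range_of_aug x
    have h2 : aug k m x = 0 := h
    rw [h2, map_zero, sub_zero] at h1
    obtain ⟨v, hv⟩ := h1
    refine ⟨Sum.elim v 0, ?_⟩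
    rw [bd1_gX, ← hv]
    simp only [Sum.elim_inl, Sum.elim_inr, Pi.zero_apply, zero_mul, Finset.sum_const_zero,
      add_zero]
    rfl

theorem exists_v (w : Y → Gp m) : ∃ v : Y → J → RG ℤ m,
    ∀ y, bd1 ℤ (gen m) (v y) = MonoidAlgebra.single (w y) 1 - 1 := by
  have h : ∀ y, ∃ v, bd1 ℤ (gen m) v = MonoidAlgebra.single (w y) 1 - 1 := fun y => by
    obtain ⟨v, hv⟩ := single_sub_one (k := ℤ) (w y)
    exact ⟨v, hv⟩
  choose v hv using h
  exact ⟨v, hv⟩

/-- the coefficients in a field, more generally in a ring where `M` is zero or a unit -/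
theorem field_iso [DecidableEq n] (e : n ≃ {j : J // m j ≠ 0} ⊕ Y) (v : Y → J → RG ℤ m)
    (i0 : {j : J // m j ≠ 0}) (j1 : J) (y0 : Y) (k : Type) [CommRing k]
    (hk : ((mm (m i0.1) : ℤ) : k) = 0 ∨ IsUnit ((mm (m i0.1) : ℤ) : k)) :
    ∃ h : (n → RG k m) ≃ₗ[RG k m] (n → RG k m),
      matMap k (stdM e v) ∘ₗ tau (e.symm (Sum.inl i0)) (e.symm (Sum.inr y0))
        (xx (ge k m i0.1) (ge k m j1)) (yy (m i0.1) (ge k m i0.1))
      = matMap k (stdM e v) ∘ₗ h.toLinearMap := by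
  have hiy : e.symm (Sum.inl i0) ≠ e.symm (Sum.inr y0) := by
    intro h
    exact absurd (e.symm.injective h) Sum.inl_ne_inr
  have hag : ge k m i0.1 ^ m i0.1 = 1 := ge_pow i0.1
  have hmap : algebraMap k (RG k m) ((mm (m i0.1) : ℤ) : k) = ((mm (m i0.1) : ℤ) : RG k m) :=
    map_intCast _ _
  rcases hk with hk | hk
  · have hM : ((mm (m i0.1) : ℤ) : RG k m) = 0 := by rw [← hmap, hk, map_zero]
    have hm1 : 1 ≤ m i0.1 := Nat.one_le_iff_ne_zero.mpr i0.2
    obtain ⟨ε, h1, -, h3, h4, h5, h6⟩ := exists_e hm1 (ge k m j1) hag hM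
    refine iso_of_idem hiy _ _ ε h1 h3 h5 h6 _ ?_
    intro r
    exact std_single e k i0 _ (by rw [mul_assoc, h4, mul_zero])
  · have hM : IsUnit ((mm (m i0.1) : ℤ) : RG k m) := by
      rw [← hmap]
      exact hk.map _
    exact iso_of_unit hiy _ _ (isUnit_yy hag hM) _

theorem main_theorem (h0 : ∃ j, m j = 0) (h3 : ∃ j, 3 ≤ m j) [Nonempty Y] (w : Y → Gp m)
    (hn : Fintype.card n + Fintype.card {j : J // m j = 0} = Fintype.card J + Fintype.card Y) :
    ∃ D D' : Matrix n (J ⊕ Y) (RG ℤ m), IsStd w D ∧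
      (∀ (k : Type) [CommRing k],
        IsBd2 k (gX m w) (matMap k D) ∧ IsBd2 k (gX m w) (matMap k D')) ∧
      (∀ (F : Type) [Field F], LadderIso F (matMap F D) (matMap F D')) ∧
      LadderIso ℤ (zc (matMap ℤ D)) (zc (matMap ℤ D')) ∧
      ¬ LadderIso ℤ (matMap ℤ D) (matMap ℤ D') ∧
      IsEmpty (LinearMap.ker (matMap ℤ D) ≃ₗ[RG ℤ m] LinearMap.ker (matMap ℤ D')) := by
  classical
  obtain ⟨j1, h1⟩ := h0
  obtain ⟨j0, h3⟩ := h3
  obtain ⟨y0⟩ := ‹Nonempty Y›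
  set i0 : {j : J // m j ≠ 0} := ⟨j0, by omega⟩ with hi0
  -- the index set
  have hcard : Fintype.card n = Fintype.card ({j : J // m j ≠ 0} ⊕ Y) := by
    rw [Fintype.card_sum]
    have h2 : Fintype.card {j : J // m j ≠ 0} = Fintype.card J - Fintype.card {j : J // m j = 0} :=
      Fintype.card_subtype_compl _
    have h4 : Fintype.card {j : J // m j = 0} ≤ Fintype.card J := Fintype.card_subtype_le _
    omega
  obtain ⟨e⟩ : Nonempty (n ≃ {j : J // m j ≠ 0} ⊕ Y) := Fintype.card_eq.mp hcard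
  obtain ⟨v, hv⟩ := exists_v (m := m) w
  set i : n := e.symm (Sum.inl i0) with hi
  set y : n := e.symm (Sum.inr y0) with hy
  have hiy : i ≠ y := by
    intro h
    exact absurd (e.symm.injective h) Sum.inl_ne_inr
  set D : Matrix n (J ⊕ Y) (RG ℤ m) := stdM e v with hD
  set D' : Matrix n (J ⊕ Y) (RG ℤ m) := tauMat i y (xx (ge ℤ m j0) (ge ℤ m j1))
    (yy (m j0) (ge ℤ m j0)) * D with hD'
  have hD'k : ∀ (k : Type) [CommRing k], matMap k D' = matMap k D ∘ₗ
      tau i y (xx (ge k m j0) (ge k m j1)) (yy (m j0) (ge k m j0)) := by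
    intro k _
    rw [hD', matMap_tauMat k hiy, ch_xx, ch_yy]
  have hst : ∀ (k : Type) [CommRing k], ∃ s t : RG k m, s * xx (ge k m j0) (ge k m j1)
      + t * yy (m j0) (ge k m j0) = 1 ∧
      ∀ r : RG k m, matMap k D (Pi.single i (r * s)) = 0 := by
    intro k _
    obtain ⟨P, Q, hPQ⟩ := unimodular (m := m j0) (by omega) (ge k m j1) (ge_pow (k := k) j0)
    refine ⟨P * (ge k m j0 - 1), Q, hPQ, fun r => ?_⟩
    refine std_single e k i0 _ ?_
    show r * (P * (ge k m j0 - 1)) * nn (m j0) (ge k m j0) = 0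
    rw [mul_assoc, mul_assoc P, am1_nn (ge_pow j0), mul_zero, mul_zero]
  have hkey : IsEmpty (LinearMap.ker (matMap ℤ D) ≃ₗ[RG ℤ m] LinearMap.ker (matMap ℤ D')) := by
    rw [hD'k ℤ]
    exact no_kernel_iso e v i0 h3 j1 h1 y0
  refine ⟨D, D', ⟨e, v, hv, rfl⟩, ?_, ?_, ?_, ?_, hkey⟩
  · intro k _
    refine ⟨isBd2_std e k hv, ?_⟩
    obtain ⟨s, t, hst, hs⟩ := hst k
    unfold IsBd2
    rw [hD'k k, range_tau hiy _ _ s t hst _ hs]
    exact isBd2_std e k hv
  · intro F _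
    obtain ⟨h, hh⟩ := field_iso e v i0 j1 y0 F (by
      by_cases hF : ((mm (m i0.1) : ℤ) : F) = 0
      · exact Or.inl hF
      · exact Or.inr (Ne.isUnit hF))
    refine ⟨h.symm, ?_⟩
    rw [hD'k F]
    have hh' : matMap F D ∘ₗ tau i y (xx (ge F m j0) (ge F m j1)) (yy (m j0) (ge F m j0))
        = matMap F D ∘ₗ h.toLinearMap := hh
    rw [hh', LinearMap.comp_assoc, LinearEquiv.comp_symm, LinearMap.comp_id]
  · obtain ⟨s, t, hst, hs⟩ := hst ℤ
    obtain ⟨h, hh⟩ := iso_stable hiy _ _ s t hst (matMap ℤ D) hs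
    refine ⟨h.symm, ?_⟩
    rw [hD'k ℤ, hh, LinearMap.comp_assoc, LinearEquiv.comp_symm, LinearMap.comp_id]
  · rintro ⟨h, hh⟩
    refine hkey.false ?_
    have hk : (LinearMap.ker (matMap ℤ D)).map (h : (n → RG ℤ m) →ₗ[RG ℤ m] (n → RG ℤ m))
        = LinearMap.ker (matMap ℤ D') := by
      ext x
      simp only [Submodule.mem_map, LinearMap.mem_ker]
      constructor
      · rintro ⟨z, hz, rfl⟩
        rw [← hz, hh]
        rfl
      · intro hx
        refine ⟨h.symm x, ?_, h.apply_symm_apply x⟩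
        rw [hh]
        show matMap ℤ D' (h (h.symm x)) = 0
        rw [h.apply_symm_apply, hx]
    exact (h.submoduleMap (LinearMap.ker (matMap ℤ D))).trans (LinearEquiv.ofEq _ _ hk)

theorem final_theorem (h0 : ∃ j, m j = 0) (h3 : ∃ j, 3 ≤ m j) [Nonempty Y] (w : Y → Gp m)
    (hn : Fintype.card n + Fintype.card {j : J // m j = 0} = Fintype.card J + Fintype.card Y) :
    ∃ D D' : Matrix n (J ⊕ Y) (RG ℤ m), IsStd w D ∧ ExactAll w D ∧ ExactAll w D' ∧
      (∀ (F : Type) [Field F], IsoOver F D D') ∧ StablyIso D D' ∧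
      ¬ IsoOver ℤ D D' ∧ ¬ KerIso D D' := by
  obtain ⟨D, D', h1, h2, h3, h4, h5, h6⟩ := main_theorem (n := n) h0 h3 w hn
  exact ⟨D, D', h1, fun k _ => ⟨(h2 k).1, fun x => range_bd1 k w x⟩,
    fun k _ => ⟨(h2 k).2, fun x => range_bd1 k w x⟩, h3, h4, h5, fun ⟨h⟩ => h6.false h⟩

end

end ExoGen
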