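import Pool.Agent.Lib.MP_2d4659_gt.EX.Ring

/-!
# More identities in a ring with an element of finite order

The element `y` divides `M` (`exists_yinv`); two elements `p` with `p x ∈ A y`
(`mm_mem`, `p1_mem`); if `M` is zero in `A` there is an idempotent `e` with
`e y = y e = 0`, `e x e = e`, `e N = 0` and `y + e` a unit.
-/

open Polynomial

namespace ExoGen

section Poly

/-- the polynomial `1 + X + ... + X ^ (m - 1)` -/
noncomputable def Np (m : ℕ) : ℤ[X] := ∑ i ∈ Finset.range m, (X : ℤ[X]) ^ i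

/-- the polynomial `∑ X ^ i m ^ (m - 1 - i)` -/
noncomputable def Qp (m : ℕ) : ℤ[X] :=
  ∑ i ∈ Finset.range m, (X : ℤ[X]) ^ i * (C (m : ℤ)) ^ (m - 1 - i)

theorem Np_mul (m : ℕ) : Np m * (X - 1) = X ^ m - 1 := geom_sum_mul X m

theorem Np_eval_one (m : ℕ) : (Np m).eval 1 = (m : ℤ) := by
  simp [Np, eval_finsetSum]

theorem Np_eval_m (m : ℕ) : (Np m).eval (m : ℤ) = mm m := by
  simp [Np, mm, eval_finsetSum]

theorem Qp_mul (m : ℕ) : Qp m * (X - C (m : ℤ)) = X ^ m - C (m : ℤ) ^ m :=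
  (Commute.all _ _).geom_sum₂_mul m

theorem Qp_eval (m : ℕ) (hm : 1 ≤ m) : (Qp m).eval (m : ℤ) = (m : ℤ) ^ m := by
  rw [Qp, eval_finsetSum]
  have : ∀ i ∈ Finset.range m, ((X : ℤ[X]) ^ i * (C (m : ℤ)) ^ (m - 1 - i)).eval (m : ℤ)
      = (m : ℤ) ^ (m - 1) := by
    intro i hi
    have hi' := Finset.mem_range.mp hi
    rw [eval_mul, eval_pow, eval_X, eval_pow, eval_C, ← pow_add]
    congr 1
    omega
  rw [Finset.sum_congr rfl this, Finset.sum_const, Finset.card_range, nsmul_eq_mul,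
    ← pow_succ']
  congr 1
  omega

theorem root (p : ℤ[X]) (c : ℤ) : ∃ q, p = C (p.eval c) + (X - C c) * q := by
  have hroot : (X - C c) ∣ p - C (p.eval c) := by
    rw [dvd_iff_isRoot, IsRoot, eval_sub, eval_C, sub_self]
  obtain ⟨q, hq⟩ := hroot
  exact ⟨q, by linear_combination hq⟩

theorem Np_mul_poly (m : ℕ) (p : ℤ[X]) : ∃ q, Np m * p = C (p.eval 1) * Np m + (X ^ m - 1) * q := by
  obtain ⟨q, hq⟩ := root p 1
  refine ⟨q, ?_⟩
  have h := Np_mul m
  have h1 : (C (1 : ℤ) : ℤ[X]) = 1 := C_1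
  rw [h1] at hq
  linear_combination (Np m) * hq + q * h

theorem gm_int (m : ℕ) : (m : ℤ) ^ m - 1 = ((m : ℤ) - 1) * mm m := by
  unfold mm
  rw [mul_geom_sum]

theorem C_pow_m (m : ℕ) : (C (m : ℤ) : ℤ[X]) ^ m = 1 + (C (m : ℤ) - 1) * C (mm m) := by
  have h := congrArg (C : ℤ → ℤ[X]) (gm_int m)
  rw [map_sub, map_mul, map_sub, map_pow, map_one] at h
  linear_combination h

/-- `y` divides `M` modulo `X ^ m - 1` -/
theorem exists_Y (m : ℕ) : ∃ Y R : ℤ[X],
    (X - C (m : ℤ) + Np m) * Y = C (mm m) + (X ^ m - 1) * R := by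
  obtain ⟨K, hK⟩ := root (Np m) m
  rw [Np_eval_m] at hK
  obtain ⟨qK, hqK⟩ := Np_mul_poly m K
  obtain ⟨qN, hqN⟩ := Np_mul_poly m (Np m)
  rw [Np_eval_one] at hqN
  have hX := Np_mul m
  set k1 : ℤ[X] := C (K.eval 1) with hk1
  refine ⟨-K + (1 + k1) * Np m, (1 + k1) - qK + (1 + k1) * qN, ?_⟩
  linear_combination (1 : ℤ[X]) * hK + (1 + k1) * hX - hqK + (1 + k1) * hqN

/-- the relation for the idempotent case -/
theorem exists_T (m : ℕ) (hm : 1 ≤ m) : ∃ T R : ℤ[X],
    (X - C (m : ℤ) + Np m) * T = Qp m - C (m : ℤ) ^ m + (X ^ m - 1) * R := by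
  obtain ⟨T, hT⟩ := root (Qp m) m
  rw [Qp_eval m hm, map_pow] at hT
  obtain ⟨qT, hqT⟩ := Np_mul_poly m T
  obtain ⟨qN, hqN⟩ := Np_mul_poly m (Np m)
  rw [Np_eval_one] at hqN
  have hX := Np_mul m
  set t1 : ℤ[X] := C (T.eval 1) with ht1
  refine ⟨T - t1 * Np m, qT - t1 - t1 * qN, ?_⟩
  linear_combination (-1 : ℤ[X]) * hT - t1 * hX + hqT - t1 * hqN

theorem QQ (m : ℕ) (hm : 1 ≤ m) : ∃ U R : ℤ[X],
    Qp m * Qp m = C (m : ℤ) ^ m * Qp m + C (mm m) * U + (X ^ m - 1) * R := by
  obtain ⟨T, hT⟩ := root (Qp m) m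
  rw [Qp_eval m hm, map_pow] at hT
  have h1 := Qp_mul m
  have h2 := C_pow_m m
  refine ⟨-(C (m : ℤ) - 1) * T, T, ?_⟩
  linear_combination Qp m * hT + T * h1 - T * h2

theorem QN (m : ℕ) : ∃ U R : ℤ[X],
    Qp m * Np m = C (mm m) * U + (X ^ m - 1) * R := by
  obtain ⟨K, hK⟩ := root (Np m) m
  rw [Np_eval_m] at hK
  have h1 := Qp_mul m
  have h2 := C_pow_m m
  refine ⟨Qp m - (C (m : ℤ) - 1) * K, K, ?_⟩
  linear_combination Qp m * hK + K * h1 - K * h2

theorem QX (m : ℕ) : Qp m * (X - C (m : ℤ)) =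
    C (mm m) * (-(C (m : ℤ) - 1)) + (X ^ m - 1) * 1 := by
  have h1 := Qp_mul m
  have h2 := C_pow_m m
  linear_combination h1 - h2

end Poly

variable {A : Type*} [Ring A]

/-- evaluation of an integral polynomial, as a ring homomorphism -/
noncomputable def ev (a : A) : ℤ[X] →+* A := (aeval a : ℤ[X] →ₐ[ℤ] A).toRingHom

theorem ev_eq (a : A) (p : ℤ[X]) : ev a p = aeval a p := rfl

theorem ev_X (a : A) : ev a X = a := by
  rw [ev_eq, aeval_X]

theorem ev_C (a : A) (c : ℤ) : ev a (C c) = (c : A) := by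
  rw [ev_eq, aeval_C]
  simp

theorem map_ev {B : Type*} [Ring B] (f : A →+* B) (a : A) (p : ℤ[X]) :
    f (ev a p) = ev (f a) p := by
  induction p using Polynomial.induction_on' with
  | add p q hp hq => rw [map_add, map_add, hp, hq, map_add]
  | monomial n r =>
    rw [← C_mul_X_pow_eq_monomial, map_mul, map_mul, map_mul, map_pow, map_pow, map_pow, ev_X,
      ev_X, ev_C, ev_C, map_intCast]

theorem aeval_Np (m : ℕ) (a : A) : aeval a (Np m) = nn m a := by
  simp [Np, nn]

theorem aeval_W {m : ℕ} {a : A} (ha : a ^ m = 1) (R : ℤ[X]) :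
    aeval a ((X ^ m - 1) * R) = 0 := by
  rw [map_mul, map_sub, map_pow, aeval_X, ha]
  simp

theorem aeval_C' (a : A) (c : ℤ) : aeval a (C c) = (c : A) := by
  rw [aeval_C]
  simp

theorem aeval_Y (m : ℕ) (a : A) : aeval a (X - C (m : ℤ) + Np m) = yy m a := by
  rw [map_add, map_sub, aeval_X, aeval_Np, aeval_C']
  simp [yy]

theorem aeval_comm (a : A) (p q : ℤ[X]) : aeval a p * aeval a q = aeval a q * aeval a p := by
  rw [← map_mul, mul_comm, map_mul]

/-- `y` divides `M` -/
theorem exists_yinv {m : ℕ} {a : A} (ha : a ^ m = 1) :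
    ∃ y' : A, yy m a * y' = ((mm m : ℤ) : A) ∧ y' * yy m a = ((mm m : ℤ) : A) := by
  obtain ⟨Y, R, h⟩ := exists_Y m
  have h1 := congrArg (aeval a) h
  rw [map_mul, map_add (aeval a) (C (mm m)), aeval_W ha, aeval_Y, aeval_C', add_zero] at h1
  refine ⟨aeval a Y, h1, ?_⟩
  rw [← aeval_Y m a, aeval_comm, aeval_Y]
  exact h1

theorem isUnit_yy {m : ℕ} {a : A} (ha : a ^ m = 1) (hM : IsUnit ((mm m : ℤ) : A)) :
    IsUnit (yy m a) := by
  obtain ⟨y', h1, h2⟩ := exists_yinv ha
  obtain ⟨u, hu⟩ := hM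
  have hc : Commute y' (u : A) := by
    rw [hu]
    exact (Int.cast_commute (mm m) y').symm
  have hc' : Commute y' (↑u⁻¹ : A) := hc.units_inv_right
  refine ⟨⟨yy m a, y' * ↑u⁻¹, ?_, ?_⟩, rfl⟩
  · rw [← mul_assoc, h1, ← hu, Units.mul_inv]
  · rw [hc'.eq, mul_assoc, h2, ← hu, Units.inv_mul]

/-- `M (a - 1)` is in the annihilator of `N` and `M (a - 1) x` is in `A y` -/
theorem mm_mem {m : ℕ} {a : A} (b : A) (ha : a ^ m = 1) :
    ∃ q : A, (((mm m : ℤ) : A) * (a - 1)) * xx a b + q * yy m a = 0 := by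
  obtain ⟨y', -, h2⟩ := exists_yinv ha
  refine ⟨-((a - 1) * xx a b * y'), ?_⟩
  have h3 : (a - 1) * xx a b * y' * yy m a = ((mm m : ℤ) : A) * ((a - 1) * xx a b) := by
    rw [mul_assoc, h2]
    exact (Int.cast_commute (mm m) ((a - 1) * xx a b)).symm.eq
  rw [neg_mul, h3, mul_assoc]
  exact add_neg_cancel _

/-- the second element of the annihilator of `N` -/
noncomputable def p1 (m : ℕ) (a b : A) : A :=
  (a - 1) * (a - m) * (((m : A) - 1) * (m : A) ^ m
    - (a - m) * b * ((a - 1) * aeval a (Qp m)))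

theorem p1_nn {m : ℕ} {a : A} (b : A) (ha : a ^ m = 1) : p1 m a b * nn m a = 0 := by
  have h1 : (a - 1) * aeval a (Qp m) * nn m a = 0 := by
    have e1 : (a - 1) = aeval a (X - 1 : ℤ[X]) := by simp
    rw [← aeval_Np, e1, mul_assoc, aeval_comm a (Qp m), ← mul_assoc, ← e1, aeval_Np,
      am1_nn ha, zero_mul]
  have h2 : (a - 1) * (a - m) * (((m : A) - 1) * (m : A) ^ m) * nn m a = 0 := by
    have hc1 : Commute ((m : A) - 1) (nn m a) := ((Nat.cast_commute m (nn m a)).sub_left
      (Commute.one_left _))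
    have hc2 : Commute ((m : A) ^ m) (nn m a) := (Nat.cast_commute m (nn m a)).pow_left m
    have e : (a - (m : A)) * nn m a = nn m a * (a - m) := by
      rw [sub_mul, mul_sub, a_mul_nn ha, nn_mul_a ha, (Nat.cast_commute m (nn m a)).eq]
    calc (a - 1) * (a - m) * (((m : A) - 1) * (m : A) ^ m) * nn m a
        = (a - 1) * (a - m) * (((m : A) - 1) * ((m : A) ^ m * nn m a)) := by noncomm_ring
      _ = (a - 1) * (a - m) * ((((m : A) - 1) * nn m a) * (m : A) ^ m) := by
          rw [hc2.eq, mul_assoc ((m : A) - 1)]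
      _ = (a - 1) * ((a - m) * nn m a) * ((m : A) - 1) * (m : A) ^ m := by
          rw [hc1.eq]; noncomm_ring
      _ = ((a - 1) * nn m a) * (a - m) * ((m : A) - 1) * (m : A) ^ m := by
          rw [e]; noncomm_ring
      _ = 0 := by rw [am1_nn ha]; simp
  unfold p1
  rw [mul_sub, sub_mul, h2]
  have h3 : (a - 1) * (a - m) * ((a - m) * b * ((a - 1) * aeval a (Qp m))) * nn m a
      = (a - 1) * (a - m) * (a - m) * b * ((a - 1) * aeval a (Qp m) * nn m a) := by
    simp only [mul_assoc]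
  rw [h3, h1]
  simp

theorem p1_mem {m : ℕ} (hm : 1 ≤ m) {a : A} (b : A) (ha : a ^ m = 1) :
    ∃ q : A, p1 m a b * xx a b + q * yy m a = 0 := by
  set I : Ideal A := Ideal.span {yy m a} with hI
  have hy : yy m a ∈ I := Ideal.subset_span (by simp)
  have hN : nn m a ∈ I := by
    rw [← nn_yy ha]
    exact I.mul_mem_left _ hy
  have hag : a - m ∈ I := by
    have : a - m = yy m a - nn m a := by
      unfold yy
      abel
    rw [this]
    exact I.sub_mem hy hN
  have hM : ((mm m : ℤ) : A) ∈ I := by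
    obtain ⟨y', -, h2⟩ := exists_yinv ha
    rw [← h2]
    exact I.mul_mem_left _ hy
  -- everything commutes past integers
  have hmz : ∀ z : A, Commute (m : A) z := fun z => Nat.cast_commute m z
  set c : A := ((m : A) - 1) * (m : A) ^ m with hc
  have hcz : ∀ z : A, Commute c z := fun z =>
    ((hmz z).sub_left (Commute.one_left z)).mul_left ((hmz z).pow_left m)
  set u : A := (a - 1) * (a - m) with hu
  have hxI : ∀ p : A, p * xx a b - p * (1 + (a - m) * b) ∈ I := by
    intro p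
    have : p * xx a b - p * (1 + (a - m) * b) = -(p * b * (a - m)) := by
      rw [xx_eq m]
      noncomm_ring
    rw [this]
    exact I.neg_mem (I.mul_mem_left _ hag)
  -- `(a - 1) Q(a) ≡ (m - 1) m ^ m`
  have hQ1 : (a - 1) * aeval a (Qp m) - c ∈ I := by
    have h := aeval_sub_mem I hag ((X - 1) * Qp m)
    rw [map_mul, map_sub, aeval_X, map_one, eval_mul, Qp_eval m hm] at h
    simpa [hc] using h
  -- `(a - 1) Q(a) (a - m) = -(m - 1) M (a - 1)`
  have hQ2 : (a - 1) * aeval a (Qp m) * (a - m) ∈ I := by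
    exact I.mul_mem_left _ hag
  have hQ3 : ∀ z : A, (a - 1) * aeval a (Qp m) * (a - m) * z ∈ I := by
    intro z
    have h := congrArg (aeval a) (QX m)
    rw [map_add, aeval_W ha, add_zero, map_mul, map_mul, map_sub, aeval_X, aeval_C',
      aeval_C'] at h
    have h' : aeval a (Qp m) * (a - m) = ((mm m : ℤ) : A) * aeval a (-(C (m : ℤ) - 1)) := by
      simpa using h
    have h4 : (a - 1) * aeval a (Qp m) * (a - m) * z
        = (a - 1) * (((mm m : ℤ) : A) * (aeval a (-(C (m : ℤ) - 1)) * z)) := by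
      rw [mul_assoc (a - 1), h']
      simp only [mul_assoc]
    rw [h4, (Int.cast_commute (mm m) (aeval a (-(C (m : ℤ) - 1)) * z)).eq]
    exact I.mul_mem_left _ (I.mul_mem_left _ hM)
  have key : p1 m a b * (1 + (a - m) * b) ∈ I := by
    have e : p1 m a b * (1 + (a - m) * b)
        = u * c + u * (c * ((a - m) * b)) - u * (a - m) * b * ((a - 1) * aeval a (Qp m) - c)
          - u * (a - m) * b * c
          - u * (a - m) * b * ((a - 1) * aeval a (Qp m) * (a - m) * b) := by
      unfold p1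
      rw [← hc, ← hu]
      noncomm_ring
    have e2 : u * (c * ((a - m) * b)) = u * (a - m) * b * c := by
      rw [(hcz ((a - m) * b)).eq]
      noncomm_ring
    have e3 : u * c = ((a - 1) * c) * (a - m) := by
      rw [hu, mul_assoc, mul_assoc, (hcz (a - m)).eq]
    rw [e, e2, e3]
    have : ((a - 1) * c) * (a - m) + u * (a - m) * b * c
        - u * (a - m) * b * ((a - 1) * aeval a (Qp m) - c) - u * (a - m) * b * c
        - u * (a - m) * b * ((a - 1) * aeval a (Qp m) * (a - m) * b)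
        = ((a - 1) * c) * (a - m)
        - u * (a - m) * b * ((a - 1) * aeval a (Qp m) - c)
        - u * (a - m) * b * ((a - 1) * aeval a (Qp m) * (a - m) * b) := by abel
    rw [this]
    exact I.sub_mem (I.sub_mem (I.mul_mem_left _ hag) (I.mul_mem_left _ hQ1))
      (I.mul_mem_left _ (hQ3 b))
  have hfin : p1 m a b * xx a b ∈ I := by
    have : p1 m a b * xx a b = (p1 m a b * xx a b - p1 m a b * (1 + (a - m) * b))
      + p1 m a b * (1 + (a - m) * b) := by abel
    rw [this]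
    exact I.add_mem (hxI _) key
  obtain ⟨q, hq⟩ := Ideal.mem_span_singleton'.mp hfin
  exact ⟨-q, by rw [← hq]; simp⟩

/-- the idempotent in the case `M = 0` -/
theorem exists_e {m : ℕ} (hm : 1 ≤ m) {a : A} (b : A) (ha : a ^ m = 1)
    (hM : ((mm m : ℤ) : A) = 0) :
    ∃ e : A, e * e = e ∧ e * yy m a = 0 ∧ yy m a * e = 0 ∧ e * nn m a = 0 ∧
      e * xx a b * e = e ∧ IsUnit (yy m a + e) := by
  -- `m` is a unit
  obtain ⟨u, v, huv⟩ := isCoprime_m m hm
  have hum : (u : A) * (m : A) = 1 := by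
    have h := congrArg (Int.cast : ℤ → A) huv
    push_cast at h
    rw [hM, mul_zero, add_zero] at h
    exact h
  have hmu : (m : A) * (u : A) = 1 := by
    rw [(Nat.cast_commute m (u : A)).eq]
    exact hum
  have huz : ∀ z : A, Commute ((u : A) ^ m) z := fun z => (Int.cast_commute u z).pow_left m
  have humm : (u : A) ^ m * (m : A) ^ m = 1 := by
    rw [← (Nat.cast_commute m (u : A)).symm.mul_pow, hum, one_pow]
  set Qa : A := aeval a (Qp m) with hQa
  have hQQ : Qa * Qa = (m : A) ^ m * Qa := by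
    obtain ⟨U, R, h⟩ := QQ m hm
    have h1 := congrArg (aeval a) h
    rw [map_add, aeval_W ha, add_zero, map_add, map_mul, map_mul, map_mul, map_pow, aeval_C',
      aeval_C', hM, zero_mul, add_zero] at h1
    simpa using h1
  have hQN : Qa * nn m a = 0 := by
    obtain ⟨U, R, h⟩ := QN m
    have h1 := congrArg (aeval a) h
    rw [map_add, aeval_W ha, add_zero, map_mul, map_mul, aeval_C', aeval_Np, hM, zero_mul] at h1
    exact h1
  have hQX : Qa * (a - m) = 0 := by
    have h1 := congrArg (aeval a) (QX m)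
    rw [map_add, aeval_W ha, add_zero, map_mul, map_mul, map_sub, aeval_X, aeval_C',
      aeval_C', hM, zero_mul] at h1
    simpa using h1
  have hXQ : (a - m) * Qa = 0 := by
    have e1 : (a - (m : A)) = aeval a (X - C (m : ℤ) : ℤ[X]) := by
      rw [map_sub, aeval_X, aeval_C']
      simp
    rw [e1, hQa, aeval_comm, ← e1, ← hQa]
    exact hQX
  have hQy : Qa * yy m a = 0 := by
    unfold yy
    rw [mul_add, hQX, hQN, add_zero]
  have hyQ : yy m a * Qa = 0 := by
    rw [← aeval_Y, hQa, aeval_comm, aeval_Y, ← hQa]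
    exact hQy
  obtain ⟨T, R, hT⟩ := exists_T m hm
  have hT1 : yy m a * aeval a T = Qa - (m : A) ^ m := by
    have h1 := congrArg (aeval a) hT
    rw [map_mul, map_add (aeval a) (Qp m - C (m : ℤ) ^ m), aeval_W ha, add_zero, aeval_Y,
      map_sub, map_pow, aeval_C'] at h1
    simpa using h1
  have hT2 : aeval a T * yy m a = Qa - (m : A) ^ m := by
    rw [← hT1, ← aeval_Y, aeval_comm]
  set e : A := (u : A) ^ m * Qa with he
  have hee : e * e = e := by
    rw [he]
    calc (u : A) ^ m * Qa * ((u : A) ^ m * Qa) = (u : A) ^ m * (Qa * (u : A) ^ m) * Qa := by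
          simp only [mul_assoc]
      _ = (u : A) ^ m * ((u : A) ^ m * Qa) * Qa := by rw [(huz Qa).eq]
      _ = (u : A) ^ m * (u : A) ^ m * (Qa * Qa) := by simp only [mul_assoc]
      _ = (u : A) ^ m * ((u : A) ^ m * (m : A) ^ m) * Qa := by rw [hQQ]; simp only [mul_assoc]
      _ = (u : A) ^ m * Qa := by rw [humm, mul_one]
  have hey : e * yy m a = 0 := by rw [he, mul_assoc, hQy, mul_zero]
  have hye : yy m a * e = 0 := by
    rw [he, ← mul_assoc, ← (huz (yy m a)).eq, mul_assoc, hyQ, mul_zero]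
  have heN : e * nn m a = 0 := by rw [he, mul_assoc, hQN, mul_zero]
  have heX : e * (a - m) = 0 := by rw [he, mul_assoc, hQX, mul_zero]
  have hXe : (a - m) * e = 0 := by
    rw [he, ← mul_assoc, ← (huz (a - m)).eq, mul_assoc, hXQ, mul_zero]
  have hexe : e * xx a b * e = e := by
    rw [xx_eq m]
    have : e * (1 + (a - m) * b - b * (a - m)) * e
        = e * e + (e * (a - m)) * b * e - e * b * ((a - m) * e) := by noncomm_ring
    rw [this, hee, heX, hXe]
    simp
  refine ⟨e, hee, hey, hye, heN, hexe, ?_⟩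
  -- the inverse of `y + e`
  set T' : A := -((u : A) ^ m * aeval a T) with hT'
  have hyT : yy m a * T' = 1 - e := by
    rw [hT', mul_neg, ← mul_assoc, ← (huz (yy m a)).eq, mul_assoc, hT1, mul_sub, humm, ← he]
    abel
  have hTy : T' * yy m a = 1 - e := by
    rw [hT', neg_mul, mul_assoc, hT2, mul_sub, humm, ← he]
    abel
  have hTe : T' * e = e * T' := by
    rw [hT', he, neg_mul, mul_neg, neg_inj]
    calc (u : A) ^ m * aeval a T * ((u : A) ^ m * Qa)
        = (u : A) ^ m * (aeval a T * (u : A) ^ m) * Qa := by simp only [mul_assoc]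
      _ = (u : A) ^ m * ((u : A) ^ m * aeval a T) * Qa := by rw [(huz (aeval a T)).eq]
      _ = (u : A) ^ m * (u : A) ^ m * (aeval a T * Qa) := by simp only [mul_assoc]
      _ = (u : A) ^ m * (u : A) ^ m * (Qa * aeval a T) := by rw [hQa, aeval_comm]
      _ = (u : A) ^ m * ((u : A) ^ m * Qa) * aeval a T := by simp only [mul_assoc]
      _ = (u : A) ^ m * (Qa * (u : A) ^ m) * aeval a T := by rw [(huz Qa).eq]
      _ = (u : A) ^ m * Qa * ((u : A) ^ m * aeval a T) := by simp only [mul_assoc]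
  refine ⟨⟨yy m a + e, T' * (1 - e) + e, ?_, ?_⟩, rfl⟩
  · have : (yy m a + e) * (T' * (1 - e) + e)
        = (yy m a * T') * (1 - e) + yy m a * e + (e * T') * (1 - e) + e * e := by noncomm_ring
    rw [this, hyT, hye, ← hTe, hee]
    have : (1 - e) * (1 - e) + 0 + T' * e * (1 - e) + e
        = 1 + (e * e - e) + T' * (e - e * e) := by noncomm_ring
    rw [this, hee]
    simp
  · have : (T' * (1 - e) + e) * (yy m a + e)
        = T' * yy m a - T' * (e * yy m a) + T' * (e - e * e) + e * yy m a + e * e := by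
      noncomm_ring
    rw [this, hTy, hey, hee]
    simp

end ExoGen
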