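import Pool.Agent.Lib.MP_2d4659_gt.EX.Defs
import Pool.Agent.Lib.MP_2d4659_gt.EX.Ring2

/-!
# The group ring of a free product of cyclic groups

Homomorphisms out of `Gp m`, the Fox derivatives, the augmentation ideal and the annihilators of
`a_j - 1` and of `N_j`.
-/

set_option autoImplicit false

namespace ExoGen

open FP

section Hom

variable {Γ : Type*} [Group Γ]

/-- the homomorphism from the cyclic group of order `n` (infinite if `n = 0`) with a given value on
the generator -/
noncomputable def cyc (n : ℕ) (u : Γ) (hu : u ^ n = 1) : Multiplicative (ZMod n) →* Γ :=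
  AddMonoidHom.toMultiplicativeLeft (ZMod.lift n (A := Additive Γ)
    ⟨zmultiplesHom (Additive Γ) (Additive.ofMul u), by
      rw [zmultiplesHom_apply, natCast_zsmul, ← ofMul_pow, hu, ofMul_one]⟩)

theorem cyc_one (n : ℕ) (u : Γ) (hu : u ^ n = 1) : cyc n u hu (Multiplicative.ofAdd 1) = u := by
  unfold cyc
  rw [AddMonoidHom.coe_toMultiplicativeLeft]
  simp only [Function.comp_apply, toAdd_ofAdd]
  have h : (1 : ZMod n) = ((1 : ℤ) : ZMod n) := by simp
  rw [h, ZMod.lift_coe, zmultiplesHom_apply, one_zsmul, toMul_ofMul]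

variable {J : Type} {m : J → ℕ}

/-- the homomorphism with given values on the generators -/
noncomputable def gpHom (u : J → Γ) (hu : ∀ j, u j ^ m j = 1) : Gp m →* Γ :=
  Monoid.CoprodI.lift (fun j => cyc (m j) (u j) (hu j))

theorem gpHom_gen (u : J → Γ) (hu : ∀ j, u j ^ m j = 1) (j : J) :
    gpHom u hu (gen m j) = u j := by
  unfold gpHom gen
  rw [Monoid.CoprodI.lift_of, cyc_one]

end Hom

variable {J : Type} {m : J → ℕ}

theorem of_mem (j : J) (x : Multiplicative (ZMod (m j))) :
    Monoid.CoprodI.of (M := fun j => Multiplicative (ZMod (m j))) (i := j) x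
      ∈ Subgroup.closure (Set.range (gen m)) := by
  obtain ⟨k, hk⟩ := ZMod.intCast_surjective x.toAdd
  have h : x = (Multiplicative.ofAdd (1 : ZMod (m j))) ^ k := by
    rw [← ofAdd_zsmul]
    show Multiplicative.ofAdd x.toAdd = _
    rw [← hk]
    simp
  rw [h, map_zpow]
  exact Subgroup.zpow_mem _ (Subgroup.subset_closure (Set.mem_range_self j)) k

theorem mem_closure (g : Gp m) : g ∈ Subgroup.closure (Set.range (gen m)) := by
  induction g using Monoid.CoprodI.induction_on with
  | one => exact Subgroup.one_mem _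
  | of i x => exact of_mem i x
  | mul x y hx hy => exact Subgroup.mul_mem _ hx hy

theorem Gp_induction {motive : Gp m → Prop} (one : motive 1)
    (mul : ∀ g j, motive g → motive (g * gen m j))
    (inv : ∀ g j, motive g → motive (g * (gen m j)⁻¹)) (g : Gp m) : motive g := by
  refine Subgroup.closure_induction_right (p := fun g _ => motive g) one ?_ ?_ (mem_closure g)
  · rintro x _ _ ⟨j, rfl⟩ h
    exact mul x j h
  · rintro x _ _ ⟨j, rfl⟩ h
    exact inv x j h

section

variable (k : Type) [CommRing k]

/-- its inverse -/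
noncomputable def gi (m : J → ℕ) (j : J) : RG k m := MonoidAlgebra.single (gen m j)⁻¹ 1

variable {k}

theorem ge_gi (j : J) : ge k m j * gi k m j = 1 := by
  unfold ge gi
  rw [MonoidAlgebra.single_mul_single, mul_inv_cancel, mul_one]
  rfl

theorem gi_ge (j : J) : gi k m j * ge k m j = 1 := by
  unfold ge gi
  rw [MonoidAlgebra.single_mul_single, inv_mul_cancel, mul_one]
  rfl

theorem ge_pow (j : J) : ge k m j ^ m j = 1 := by
  unfold ge
  rw [MonoidAlgebra.single_pow, gen_pow_card, one_pow]
  rfl

/-! ### Fox derivatives -/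

open Classical in
/-- the value of the `i`-th derivation on `a_j`: zero if `i ≠ j`, and for `i = j` one or `a_j - 1` -/
noncomputable def cc (k : Type) [CommRing k] (m : J → ℕ) (i j : J) : RG k m :=
  if i = j then (if m j = 0 then 1 else ge k m j - 1) else 0

/-- the unit `[[a_j, c_j], [0, 1]]` -/
noncomputable def foxU (k : Type) [CommRing k] (m : J → ℕ) (i j : J) :
    (Matrix (Fin 2) (Fin 2) (RG k m))ˣ where
  val := !![ge k m j, cc k m i j; 0, 1]
  inv := !![gi k m j, -(gi k m j * cc k m i j); 0, 1]
  val_inv := by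
    refine Matrix.ext fun a b => ?_
    fin_cases a <;> fin_cases b <;>
      simp [Matrix.mul_apply, Fin.sum_univ_two, ge_gi, ← mul_assoc]
  inv_val := by
    refine Matrix.ext fun a b => ?_
    fin_cases a <;> fin_cases b <;>
      simp [Matrix.mul_apply, Fin.sum_univ_two, gi_ge]

theorem foxU_pow (i j : J) : foxU k m i j ^ m j = 1 := by
  by_cases hj : m j = 0
  · rw [hj, pow_zero]
  · apply Units.ext
    rw [Units.val_pow_eq_pow_val, Units.val_one]
    obtain ⟨s, hs⟩ : ∃ s : k, cc k m i j = s • (ge k m j - 1) := by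
      unfold cc
      by_cases hij : i = j
      · exact ⟨1, by rw [if_pos hij, if_neg hj, one_smul]⟩
      · exact ⟨0, by rw [if_neg hij, zero_smul]⟩
    have key : ∀ n : ℕ, (!![ge k m j, s • (ge k m j - 1); 0, 1] :
        Matrix (Fin 2) (Fin 2) (RG k m)) ^ n = !![ge k m j ^ n, s • (ge k m j ^ n - 1); 0, 1] := by
      intro n
      induction n with
      | zero =>
        refine Matrix.ext fun a b => ?_
        fin_cases a <;> fin_cases b <;> simp
      | succ n ih =>
        rw [pow_succ, ih]
        refine Matrix.ext fun a b => ?_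
        fin_cases a <;> fin_cases b <;> simp [Matrix.mul_apply, Fin.sum_univ_two, pow_succ]
        rw [← smul_add]
        congr 1
        noncomm_ring
    show (!![ge k m j, cc k m i j; 0, 1] : Matrix (Fin 2) (Fin 2) (RG k m)) ^ m j = 1
    rw [hs, key, ge_pow]
    refine Matrix.ext fun a b => ?_
    fin_cases a <;> fin_cases b <;> simp

/-- the representation `g ↦ [[g, d g], [0, 1]]` -/
noncomputable def foxHom (k : Type) [CommRing k] (m : J → ℕ) (i : J) :
    Gp m →* (Matrix (Fin 2) (Fin 2) (RG k m))ˣ :=
  gpHom (foxU k m i) (foxU_pow i)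

theorem foxHom_gen (i j : J) :
    (foxHom k m i (gen m j)).val = !![ge k m j, cc k m i j; 0, 1] := by
  unfold foxHom
  rw [gpHom_gen]
  rfl

theorem foxHom_gen_inv (i j : J) :
    (foxHom k m i (gen m j)⁻¹).val = !![gi k m j, -(gi k m j * cc k m i j); 0, 1] := by
  unfold foxHom
  rw [map_inv, gpHom_gen]
  rfl

theorem foxHom_struct (i : J) (g : Gp m) :
    (foxHom k m i g).val 0 0 = MonoidAlgebra.single g 1 ∧
    (foxHom k m i g).val 1 0 = 0 ∧ (foxHom k m i g).val 1 1 = 1 := by
  induction g using Gp_induction with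
  | one => rw [map_one]; exact ⟨rfl, rfl, rfl⟩
  | mul g j ih =>
    obtain ⟨h1, h2, h3⟩ := ih
    rw [map_mul, Units.val_mul, foxHom_gen]
    simp [Matrix.mul_apply, Fin.sum_univ_two, h1, h2, h3, ge]
  | inv g j ih =>
    obtain ⟨h1, h2, h3⟩ := ih
    rw [map_mul, Units.val_mul, foxHom_gen_inv]
    simp [Matrix.mul_apply, Fin.sum_univ_two, h1, h2, h3, gi]

/-- linear extension of `foxHom` -/
noncomputable def fox (k : Type) [CommRing k] (m : J → ℕ) (i : J) :
    RG k m →ₐ[k] Matrix (Fin 2) (Fin 2) (RG k m) :=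
  MonoidAlgebra.lift k _ (Gp m) ((Units.coeHom _).comp (foxHom k m i))

theorem fox_single (i : J) (g : Gp m) :
    fox k m i (MonoidAlgebra.single g 1) = (foxHom k m i g).val := by
  unfold fox
  rw [MonoidAlgebra.lift_single, one_smul]
  rfl

theorem fox_ge (i j : J) : fox k m i (ge k m j) = !![ge k m j, cc k m i j; 0, 1] := by
  conv_lhs => rw [ge]
  rw [fox_single, foxHom_gen]

theorem fox_zero_zero (i : J) (p : RG k m) : fox k m i p 0 0 = p := by
  induction p using MonoidAlgebra.induction_linear with
  | zero => simp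
  | add x y hx hy => rw [map_add, Matrix.add_apply, hx, hy]
  | single g r =>
    unfold fox
    rw [MonoidAlgebra.lift_single, Matrix.smul_apply]
    show r • (foxHom k m i g).val 0 0 = _
    rw [(foxHom_struct i g).1, MonoidAlgebra.smul_single, smul_eq_mul, mul_one]

theorem fox_mul_sub (i j : J) (v : RG k m) :
    fox k m i (v * (ge k m j - 1)) 0 1 = v * cc k m i j := by
  rw [map_mul, map_sub, fox_ge, map_one]
  simp [Matrix.mul_apply, Fin.sum_univ_two, fox_zero_zero]

theorem fox_kernel [Fintype J] (v : J → RG k m) (h : ∑ j, v j * (ge k m j - 1) = 0) (i : J) :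
    v i * cc k m i i = 0 := by
  have h1 : fox k m i (∑ j, v j * (ge k m j - 1)) 0 1 = v i * cc k m i i := by
    rw [map_sum, Matrix.sum_apply]
    simp only [fox_mul_sub]
    rw [Finset.sum_eq_single i]
    · intro j _ hj
      unfold cc
      rw [if_neg (Ne.symm hj), mul_zero]
    · intro h
      exact absurd (Finset.mem_univ i) h
  rw [← h1, h, map_zero]
  rfl

theorem fox_kernel_zero [Fintype J] (v : J → RG k m) (h : ∑ j, v j * (ge k m j - 1) = 0) (i : J)
    (hi : m i = 0) : v i = 0 := by
  have h1 := fox_kernel v h i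
  unfold cc at h1
  rwa [if_pos rfl, if_pos hi, mul_one] at h1

theorem fox_kernel_ne [Fintype J] (v : J → RG k m) (h : ∑ j, v j * (ge k m j - 1) = 0) (i : J)
    (hi : m i ≠ 0) : v i * (ge k m i - 1) = 0 := by
  have h1 := fox_kernel v h i
  unfold cc at h1
  rwa [if_pos rfl, if_neg hi] at h1

/-! ### The augmentation ideal -/

/-- the augmentation -/
noncomputable def aug (k : Type) [CommRing k] (m : J → ℕ) : RG k m →ₐ[k] k :=
  MonoidAlgebra.lift k k (Gp m) 1

theorem aug_single (g : Gp m) (r : k) : aug k m (MonoidAlgebra.single g r) = r := by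
  unfold aug
  rw [MonoidAlgebra.lift_single]
  simp

theorem single_sub_one [Fintype J] (g : Gp m) :
    MonoidAlgebra.single g (1 : k) - 1 ∈ LinearMap.range (bd1 k (gen m)) := by
  have hj : ∀ (x : RG k m) (j : J), x * (ge k m j - 1) ∈ LinearMap.range (bd1 k (gen m)) := by
    classical
    intro x j
    refine ⟨Pi.single j x, ?_⟩
    show ∑ i, (Pi.single j x : J → RG k m) i * (MonoidAlgebra.single (gen m i) 1 - 1) = _
    rw [Finset.sum_eq_single j]
    · rw [Pi.single_eq_same]
      rfl
    · intro i _ hi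
      rw [Pi.single_eq_of_ne hi, zero_mul]
    · intro h
      exact absurd (Finset.mem_univ j) h
  induction g using Gp_induction with
  | one =>
    rw [← MonoidAlgebra.one_def, sub_self]
    exact zero_mem _
  | mul g j ih =>
    have e : MonoidAlgebra.single (g * gen m j) (1 : k) - 1
        = MonoidAlgebra.single g 1 * (ge k m j - 1) + (MonoidAlgebra.single g 1 - 1) := by
      unfold ge
      rw [mul_sub, MonoidAlgebra.single_mul_single, mul_one, mul_one]
      abel
    rw [e]
    exact add_mem (hj _ _) ih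
  | inv g j ih =>
    have e : MonoidAlgebra.single (g * (gen m j)⁻¹) (1 : k) - 1
        = -(MonoidAlgebra.single (g * (gen m j)⁻¹) 1 * (ge k m j - 1))
          + (MonoidAlgebra.single g 1 - 1) := by
      unfold ge
      rw [mul_sub, MonoidAlgebra.single_mul_single, mul_one, mul_one, inv_mul_cancel_right]
      abel
    rw [e]
    exact add_mem (neg_mem (hj _ _)) ih

theorem mem_range_of_aug [Fintype J] (x : RG k m) :
    x - algebraMap k (RG k m) (aug k m x) ∈ LinearMap.range (bd1 k (gen m)) := by
  induction x using MonoidAlgebra.induction_linear with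
  | zero =>
    rw [map_zero, map_zero, sub_self]
    exact zero_mem _
  | add x y hx hy =>
    rw [map_add, map_add, add_sub_add_comm]
    exact add_mem hx hy
  | single g r =>
    rw [aug_single]
    have e : MonoidAlgebra.single g r - algebraMap k (RG k m) r
        = algebraMap k (RG k m) r * (MonoidAlgebra.single g 1 - 1) := by
      rw [mul_sub, mul_one, ← Algebra.smul_def, MonoidAlgebra.smul_single, smul_eq_mul, mul_one]
    rw [e]
    exact Submodule.smul_mem _ _ (single_sub_one g)

end

/-! ### Annihilators -/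

section Ann

variable {G : Type} [Group G] {k : Type} [CommRing k] {n : ℕ}

open Classical in
/-- homogeneous component -/
noncomputable def part (χ : G →* Multiplicative (ZMod n)) (c : ZMod n) (p : MonoidAlgebra k G) :
    MonoidAlgebra k G :=
  MonoidAlgebra.ofCoeff (p.coeff.filter (fun g => (χ g).toAdd = c))

theorem part_coeff (χ : G →* Multiplicative (ZMod n)) (c : ZMod n) (p : MonoidAlgebra k G)
    (g : G) : (part χ c p).coeff g = if (χ g).toAdd = c then p.coeff g else 0 := by
  classical
  unfold part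
  rw [MonoidAlgebra.coeff_ofCoeff, Finsupp.filter_apply]

theorem mul_pow_coeff (t : G) (i : ℕ) (p : MonoidAlgebra k G) (g : G) :
    (p * MonoidAlgebra.single t 1 ^ i).coeff g = p.coeff (g * (t ^ i)⁻¹) := by
  rw [MonoidAlgebra.single_pow, one_pow, MonoidAlgebra.coeff_mul_single_apply, mul_one]

theorem chi_sub {χ : G →* Multiplicative (ZMod n)} {t : G} (ht : χ t = Multiplicative.ofAdd 1)
    (g : G) (i : ℕ) : (χ (g * (t ^ i)⁻¹)).toAdd = (χ g).toAdd - i := by
  rw [map_mul, map_inv, map_pow, ht, toAdd_mul, toAdd_inv, toAdd_pow, toAdd_ofAdd,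
    sub_eq_add_neg, nsmul_one]

omit [Group G] in
theorem sum_coeff' {ι : Type} (s : Finset ι) (f : ι → MonoidAlgebra k G) (g : G) :
    (∑ i ∈ s, f i).coeff g = ∑ i ∈ s, (f i).coeff g := by
  classical
  induction s using Finset.induction_on with
  | empty => simp
  | insert a s ha ih => rw [Finset.sum_insert ha, Finset.sum_insert ha, MonoidAlgebra.coeff_add,
      Finsupp.add_apply, ih]

theorem unique_range (hn : n ≠ 0) (c : ZMod n) {M : Type} [AddCommMonoid M] (f : ℕ → M)
    (x : M) (hx : ∀ i : ℕ, (i : ZMod n) = c → f i = x) :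
    (∑ i ∈ Finset.range n, if c = (i : ZMod n) then f i else 0) = x := by
  have : NeZero n := ⟨hn⟩
  rw [Finset.sum_eq_single c.val]
  · rw [ZMod.natCast_zmod_val, if_pos rfl]
    exact hx _ (ZMod.natCast_zmod_val c)
  · intro i hi hne
    rw [if_neg]
    intro h
    apply hne
    rw [h, ZMod.val_natCast, Nat.mod_eq_of_lt (Finset.mem_range.mp hi)]
  · intro h
    exact absurd (Finset.mem_range.mpr (ZMod.val_lt c)) h

/-- the annihilator of `N` -/
theorem kerN (hn : n ≠ 0) (χ : G →* Multiplicative (ZMod n)) {t : G}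
    (ht : χ t = Multiplicative.ofAdd 1) (p : MonoidAlgebra k G)
    (h : p * nn n (MonoidAlgebra.single t (1 : k)) = 0) :
    ∃ v, p = v * (MonoidAlgebra.single t (1 : k) - 1) := by
  set a : MonoidAlgebra k G := MonoidAlgebra.single t (1 : k) with ha
  have hsum : ∑ i ∈ Finset.range n, part χ (-(i : ZMod n)) p = p := by
    ext g
    rw [sum_coeff']
    simp only [part_coeff]
    have h1 := unique_range hn (-(χ g).toAdd) (fun _ => p.coeff g) (p.coeff g) (fun _ _ => rfl)
    refine Eq.trans ?_ h1
    refine Finset.sum_congr rfl fun i _ => ?_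
    refine if_congr ?_ rfl rfl
    constructor
    · intro h; rw [h, neg_neg]
    · intro h; rw [← h, neg_neg]
  have hzero : ∑ i ∈ Finset.range n, part χ (-(i : ZMod n)) p * a ^ i = 0 := by
    ext g
    rw [sum_coeff']
    simp only [ha, mul_pow_coeff, part_coeff, chi_sub ht]
    have h1 : ∀ i : ℕ, ((χ g).toAdd - (i : ZMod n) = -(i : ZMod n)) ↔ (χ g).toAdd = 0 := by
      intro i
      constructor
      · intro h
        have := congrArg (fun z => z + (i : ZMod n)) h
        simpa using this
      · intro h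
        rw [h, zero_sub]
    simp only [h1]
    by_cases hg : (χ g).toAdd = 0
    · simp only [if_pos hg]
      have h2 := congrArg (fun q : MonoidAlgebra k G => q.coeff g) h
      simp only [nn, Finset.mul_sum, sum_coeff', ha, mul_pow_coeff] at h2
      exact h2
    · simp only [if_neg hg]
      simp
  refine ⟨∑ i ∈ Finset.range n, part χ (-(i : ZMod n)) p * (-(∑ j ∈ Finset.range i, a ^ j)), ?_⟩
  have h3 : ∀ i ∈ Finset.range n, part χ (-(i : ZMod n)) p * (-(∑ j ∈ Finset.range i, a ^ j))
      * (a - 1) = part χ (-(i : ZMod n)) p - part χ (-(i : ZMod n)) p * a ^ i := by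
    intro i _
    rw [mul_assoc, neg_mul, geom_sum_mul]
    noncomm_ring
  rw [Finset.sum_mul, Finset.sum_congr rfl h3, Finset.sum_sub_distrib, hsum, hzero, sub_zero]

/-- the annihilator of `a - 1` -/
theorem ker_am1 (hn : n ≠ 0) (χ : G →* Multiplicative (ZMod n)) {t : G}
    (ht : χ t = Multiplicative.ofAdd 1) (p : MonoidAlgebra k G)
    (h : p * (MonoidAlgebra.single t (1 : k) - 1) = 0) :
    ∃ v, p = v * nn n (MonoidAlgebra.single t (1 : k)) := by
  have h' : ∀ i : ℕ, p * MonoidAlgebra.single t (1 : k) ^ i = p := by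
    intro i
    induction i with
    | zero => rw [pow_zero, mul_one]
    | succ i ih =>
      rw [pow_succ, ← mul_assoc, ih]
      rw [mul_sub, mul_one] at h
      exact sub_eq_zero.mp h
  refine ⟨part χ 0 p, ?_⟩
  ext g
  simp only [nn, Finset.mul_sum, sum_coeff', mul_pow_coeff, part_coeff, chi_sub ht]
  have h2 : ∀ i : ℕ, p.coeff (g * (t ^ i)⁻¹) = p.coeff g := by
    intro i
    rw [← mul_pow_coeff, h']
  simp only [h2]
  have h3 : ∀ i : ℕ, ((χ g).toAdd - (i : ZMod n) = 0) ↔ (χ g).toAdd = (i : ZMod n) :=
    fun i => sub_eq_zero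
  simp only [h3]
  exact (unique_range hn _ (fun _ => p.coeff g) (p.coeff g) (fun _ _ => rfl)).symm

end Ann

section Ann2

variable {k : Type} [CommRing k]

open Classical in
/-- the degree with respect to the `j`-th generator -/
noncomputable def chi (m : J → ℕ) (j : J) : Gp m →* Multiplicative (ZMod (m j)) :=
  gpHom (fun i => if i = j then Multiplicative.ofAdd 1 else 1) (by
    intro i
    by_cases h : i = j
    · subst h
      rw [if_pos rfl, ← ofAdd_nsmul, nsmul_one, ZMod.natCast_self, ofAdd_zero]
    · rw [if_neg h, one_pow])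

theorem chi_gen (j : J) : chi m j (gen m j) = Multiplicative.ofAdd 1 := by
  unfold chi
  rw [gpHom_gen, if_pos rfl]

theorem ann_nn {j : J} (hj : m j ≠ 0) (p : RG k m) (h : p * nn (m j) (ge k m j) = 0) :
    ∃ v, p = v * (ge k m j - 1) := kerN hj (chi m j) (chi_gen j) p h

theorem ann_am1 {j : J} (hj : m j ≠ 0) (p : RG k m) (h : p * (ge k m j - 1) = 0) :
    ∃ v, p = v * nn (m j) (ge k m j) := ker_am1 hj (chi m j) (chi_gen j) p h

end Ann2

end ExoGen
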