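import Pool.Agent.Lib.MP_2d4659_gt.EX.Group
import Pool.Agent.Lib.MP_2d4659_gt.EX.Field

/-!
# The representation

`rho : ℤ G → M_2(O + O X)` sends `a_{j0}` to `diag(1, ζ)`, `a_{j1}` to `[[0, 1], [1, X]]` and all
other generators to `1`.
-/

set_option autoImplicit false

open Polynomial

namespace ExoGen

open FP

section

variable {O : Type} [CommRing O] {c : O →+* O} {hc : ∀ x, c (c x) = x} {D : ℤ}

variable (hc D) in
/-- the image of `a_{j0}` -/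
def uA (ζ : O) (hζ : ζ * c ζ = 1) : (Matrix (Fin 2) (Fin 2) (QS c hc D))ˣ where
  val := !![1, 0; 0, iota c hc D ζ]
  inv := !![1, 0; 0, iota c hc D (c ζ)]
  val_inv := by
    refine Matrix.ext fun i j => ?_
    fin_cases i <;> fin_cases j <;> simp [Matrix.mul_apply, Fin.sum_univ_two, ← map_mul, hζ]
  inv_val := by
    refine Matrix.ext fun i j => ?_
    fin_cases i <;> fin_cases j <;>
      simp [Matrix.mul_apply, Fin.sum_univ_two, ← map_mul, mul_comm (c ζ) ζ, hζ]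

variable (c hc D) in
/-- the image of `a_{j1}` -/
def uB : (Matrix (Fin 2) (Fin 2) (QS c hc D))ˣ where
  val := !![0, 1; 1, XX c hc D]
  inv := !![-XX c hc D, 1; 1, 0]
  val_inv := by
    refine Matrix.ext fun i j => ?_
    fin_cases i <;> fin_cases j <;> simp [Matrix.mul_apply, Fin.sum_univ_two]
  inv_val := by
    refine Matrix.ext fun i j => ?_
    fin_cases i <;> fin_cases j <;> simp [Matrix.mul_apply, Fin.sum_univ_two]

theorem dpow {S : Type} [Ring S] (z : S) (n : ℕ) :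
    (!![1, 0; 0, z] : Matrix (Fin 2) (Fin 2) S) ^ n = !![1, 0; 0, z ^ n] := by
  induction n with
  | zero =>
    refine Matrix.ext fun i j => ?_
    fin_cases i <;> fin_cases j <;> simp
  | succ n ih =>
    rw [pow_succ, ih]
    refine Matrix.ext fun i j => ?_
    fin_cases i <;> fin_cases j <;> simp [Matrix.mul_apply, Fin.sum_univ_two, pow_succ]

theorem uA_pow (ζ : O) (hζ : ζ * c ζ = 1) (g : ℕ) (hg : ζ ^ g = 1) :
    uA hc D ζ hζ ^ g = 1 := by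
  apply Units.ext
  rw [Units.val_pow_eq_pow_val, Units.val_one]
  show (!![1, 0; 0, iota c hc D ζ] : Matrix (Fin 2) (Fin 2) (QS c hc D)) ^ g = 1
  rw [dpow, ← map_pow, hg, map_one]
  refine Matrix.ext fun i j => ?_
  fin_cases i <;> fin_cases j <;> simp

/-- polynomials in a diagonal matrix -/
theorem ev_diag (ζ : O) (p : ℤ[X]) :
    ev (!![1, 0; 0, iota c hc D ζ] : Matrix (Fin 2) (Fin 2) (QS c hc D)) p
      = !![((p.eval 1 : ℤ) : QS c hc D), 0; 0, iota c hc D (ev ζ p)] := by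
  induction p using Polynomial.induction_on' with
  | add p q hp hq =>
    rw [map_add, hp, hq]
    refine Matrix.ext fun i j => ?_
    fin_cases i <;> fin_cases j <;> simp
  | monomial n r =>
    have e : ev (!![1, 0; 0, iota c hc D ζ] : Matrix (Fin 2) (Fin 2) (QS c hc D)) (monomial n r)
        = (r : Matrix (Fin 2) (Fin 2) (QS c hc D)) * !![1, 0; 0, iota c hc D ζ] ^ n := by
      rw [← C_mul_X_pow_eq_monomial, map_mul, map_pow, ev_X, ev_C]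
    have e2 : ev ζ (monomial n r) = (r : O) * ζ ^ n := by
      rw [← C_mul_X_pow_eq_monomial, map_mul, map_pow, ev_X, ev_C]
    rw [e, e2, dpow, ← zsmul_eq_mul]
    refine Matrix.ext fun i j => ?_
    fin_cases i <;> fin_cases j <;> simp [zsmul_eq_mul]

variable {J : Type} {m : J → ℕ}

open Classical in
/-- the values on the generators -/
noncomputable def uR (hc : ∀ x, c (c x) = x) (D : ℤ) (ζ : O) (hζ : ζ * c ζ = 1) (j0 j1 : J)
    (j : J) : (Matrix (Fin 2) (Fin 2) (QS c hc D))ˣ :=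
  if j = j0 then uA hc D ζ hζ else if j = j1 then uB c hc D else 1

theorem uR_pow (ζ : O) (hζ : ζ * c ζ = 1) {j0 j1 : J} (hg : ζ ^ m j0 = 1) (h1 : m j1 = 0)
    (j : J) : uR hc D ζ hζ j0 j1 j ^ m j = 1 := by
  unfold uR
  by_cases h : j = j0
  · subst h
    rw [if_pos rfl, uA_pow ζ hζ _ hg]
  · rw [if_neg h]
    by_cases h' : j = j1
    · subst h'
      rw [h1, pow_zero]
    · rw [if_neg h', one_pow]

/-- the representation -/
noncomputable def rho (hc : ∀ x, c (c x) = x) (D : ℤ) (ζ : O) (hζ : ζ * c ζ = 1) (j0 j1 : J)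
    (hg : ζ ^ m j0 = 1) (h1 : m j1 = 0) :
    RG ℤ m →+* Matrix (Fin 2) (Fin 2) (QS c hc D) :=
  (MonoidAlgebra.lift ℤ (Matrix (Fin 2) (Fin 2) (QS c hc D)) (Gp m) ((Units.coeHom _).comp
    (gpHom (uR hc D ζ hζ j0 j1) (uR_pow ζ hζ hg h1)))).toRingHom

variable {ζ : O} {hζ : ζ * c ζ = 1} {j0 j1 : J} {hg : ζ ^ m j0 = 1} {h1 : m j1 = 0}

theorem rho_ge (j : J) :
    rho hc D ζ hζ j0 j1 hg h1 (ge ℤ m j) = (uR hc D ζ hζ j0 j1 j).val := by
  unfold rho ge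
  show (MonoidAlgebra.lift ℤ (Matrix (Fin 2) (Fin 2) (QS c hc D)) (Gp m) ((Units.coeHom _).comp
    (gpHom (uR hc D ζ hζ j0 j1) (uR_pow ζ hζ hg h1)))) (MonoidAlgebra.single (gen m j) 1) = _
  rw [MonoidAlgebra.lift_single, one_smul]
  show (gpHom (uR hc D ζ hζ j0 j1) (uR_pow ζ hζ hg h1) (gen m j)).val = _
  rw [gpHom_gen]

theorem rho_a : rho hc D ζ hζ j0 j1 hg h1 (ge ℤ m j0) = !![1, 0; 0, iota c hc D ζ] := by
  rw [rho_ge]
  unfold uR
  rw [if_pos rfl]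
  rfl

theorem rho_b (hne : j1 ≠ j0) :
    rho hc D ζ hζ j0 j1 hg h1 (ge ℤ m j1) = !![0, 1; 1, XX c hc D] := by
  rw [rho_ge]
  unfold uR
  rw [if_neg hne, if_pos rfl]
  rfl

theorem rho_other {j : J} (h0 : j ≠ j0) (h1' : j ≠ j1) :
    rho hc D ζ hζ j0 j1 hg h1 (ge ℤ m j) = 1 := by
  rw [rho_ge]
  unfold uR
  rw [if_neg h0, if_neg h1']
  rfl

theorem rho_poly (p : ℤ[X]) : rho hc D ζ hζ j0 j1 hg h1 (ev (ge ℤ m j0) p)
    = !![((p.eval 1 : ℤ) : QS c hc D), 0; 0, iota c hc D (ev ζ p)] := by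
  rw [map_ev, rho_a, ev_diag]

theorem ev_Np {A : Type} [Ring A] (n : ℕ) (a : A) : ev a (Np n) = nn n a := aeval_Np n a

theorem rho_nn (hs : ∑ i ∈ Finset.range (m j0), ζ ^ i = 0) :
    rho hc D ζ hζ j0 j1 hg h1 (nn (m j0) (ge ℤ m j0)) = !![((m j0 : ℕ) : QS c hc D), 0; 0, 0] := by
  rw [← ev_Np, rho_poly, Np_eval_one, ev_Np]
  unfold nn
  rw [hs]
  refine Matrix.ext fun i j => ?_
  fin_cases i <;> fin_cases j <;> simp

theorem rho_nn_other {j : J} (h0 : j ≠ j0) (h1' : j ≠ j1) :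
    rho hc D ζ hζ j0 j1 hg h1 (nn (m j) (ge ℤ m j))
      = ((m j : ℕ) : Matrix (Fin 2) (Fin 2) (QS c hc D)) := by
  unfold nn
  rw [map_sum]
  simp only [map_pow, rho_other h0 h1', one_pow]
  simp

theorem rho_yy (hs : ∑ i ∈ Finset.range (m j0), ζ ^ i = 0) :
    rho hc D ζ hζ j0 j1 hg h1 (yy (m j0) (ge ℤ m j0))
      = !![1, 0; 0, iota c hc D (ζ - (m j0 : ℕ))] := by
  unfold yy
  rw [map_add, map_sub, rho_a, rho_nn hs, map_natCast]
  refine Matrix.ext fun i j => ?_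
  fin_cases i <;> fin_cases j <;> simp [Matrix.natCast_apply]

theorem rho_xx (hne : j1 ≠ j0) :
    rho hc D ζ hζ j0 j1 hg h1 (xx (ge ℤ m j0) (ge ℤ m j1)) 1 1
      = 1 + iota c hc D ζ * XX c hc D - XX c hc D * iota c hc D ζ := by
  unfold xx
  rw [map_sub, map_add, map_one, map_mul, map_mul, rho_a, rho_b hne]
  simp

theorem rho_am1 (M : ℤ) : rho hc D ζ hζ j0 j1 hg h1 ((M : RG ℤ m) * (ge ℤ m j0 - 1)) 1 1
    = iota c hc D ((M : O) * (ζ - 1)) := by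
  have h : ((M : RG ℤ m) * (ge ℤ m j0 - 1)) = ev (ge ℤ m j0) (C M * (X - 1) : ℤ[X]) := by
    rw [map_mul, map_sub, ev_X, map_one, ev_C]
  rw [h, rho_poly]
  show iota c hc D (ev ζ (C M * (X - 1) : ℤ[X])) = _
  rw [map_mul (ev ζ), map_sub (ev ζ), ev_X, map_one (ev ζ), ev_C]

theorem rho_p1 (hne : j1 ≠ j0) :
    rho hc D ζ hζ j0 j1 hg h1 (p1 (m j0) (ge ℤ m j0) (ge ℤ m j1)) 1 1
      = iota c hc D ((ζ - 1) * (ζ - (m j0 : ℕ))) *
        (iota c hc D ((((m j0 : ℕ) : O) - 1) * ((m j0 : ℕ) : O) ^ m j0)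
          - iota c hc D (ζ - (m j0 : ℕ)) * XX c hc D
            * iota c hc D ((ζ - 1) * ev ζ (Qp (m j0)))) := by
  have e1 : (ge ℤ m j0 - 1) * (ge ℤ m j0 - ((m j0 : ℕ) : RG ℤ m))
      = ev (ge ℤ m j0) ((X - 1) * (X - C ((m j0 : ℕ) : ℤ)) : ℤ[X]) := by
    rw [map_mul, map_sub, map_sub, ev_X, map_one, ev_C]
    simp
  have e2 : (ge ℤ m j0 - 1) * ev (ge ℤ m j0) (Qp (m j0))
      = ev (ge ℤ m j0) ((X - 1) * Qp (m j0) : ℤ[X]) := by
    rw [map_mul, map_sub, ev_X, map_one]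
  have e3 : (ge ℤ m j0 - ((m j0 : ℕ) : RG ℤ m))
      = ev (ge ℤ m j0) (X - C ((m j0 : ℕ) : ℤ) : ℤ[X]) := by
    rw [map_sub, ev_X, ev_C]
    simp
  have e4 : ((((m j0 : ℕ) : RG ℤ m) - 1) * ((m j0 : ℕ) : RG ℤ m) ^ m j0)
      = ev (ge ℤ m j0) ((C ((m j0 : ℕ) : ℤ) - 1) * C ((m j0 : ℕ) : ℤ) ^ m j0 : ℤ[X]) := by
    rw [map_mul, map_sub, map_one, map_pow, ev_C]
    simp
  have key : ∀ P1 P2 P3 P4 : ℤ[X],
      rho hc D ζ hζ j0 j1 hg h1 (ev (ge ℤ m j0) P1 * (ev (ge ℤ m j0) P4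
        - ev (ge ℤ m j0) P3 * ge ℤ m j1 * ev (ge ℤ m j0) P2)) 1 1
      = iota c hc D (ev ζ P1) * (iota c hc D (ev ζ P4)
        - iota c hc D (ev ζ P3) * XX c hc D * iota c hc D (ev ζ P2)) := by
    intro P1 P2 P3 P4
    rw [map_mul, map_sub, map_mul, map_mul, rho_poly, rho_poly, rho_poly, rho_poly, rho_b hne]
    simp [Matrix.mul_apply, Fin.sum_univ_two]
  unfold p1
  rw [← ev_eq, e1, e2, e3, e4, key]
  have f1 : ev ζ ((X - 1) * (X - C ((m j0 : ℕ) : ℤ)) : ℤ[X]) = (ζ - 1) * (ζ - (m j0 : ℕ)) := by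
    rw [map_mul, map_sub, map_sub, ev_X, map_one, ev_C]
    simp
  have f2 : ev ζ ((X - 1) * Qp (m j0) : ℤ[X]) = (ζ - 1) * ev ζ (Qp (m j0)) := by
    rw [map_mul, map_sub, ev_X, map_one]
  have f3 : ev ζ (X - C ((m j0 : ℕ) : ℤ) : ℤ[X]) = ζ - (m j0 : ℕ) := by
    rw [map_sub, ev_X, ev_C]
    simp
  have f4 : ev ζ ((C ((m j0 : ℕ) : ℤ) - 1) * C ((m j0 : ℕ) : ℤ) ^ m j0 : ℤ[X])
      = (((m j0 : ℕ) : O) - 1) * ((m j0 : ℕ) : O) ^ m j0 := by
    rw [map_mul, map_sub, map_one, map_pow, ev_C]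
    simp
  rw [f1, f2, f3, f4]

end

end ExoGen
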