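import Pool.Agent.Lib.MP_2d4659_gt.EX.Maps
import Pool.Agent.Lib.MP_2d4659_gt.EX.Rep

/-!
# The exotic boundary matrix
-/

set_option autoImplicit false

namespace ExoGen

open FP

section Ch

variable {J : Type} {m : J → ℕ} (k : Type) [CommRing k]

theorem ch_single (g : Gp m) :
    ch k m (MonoidAlgebra.single g 1) = MonoidAlgebra.single g 1 := by
  unfold ch
  rw [MonoidAlgebra.mapRingHom_single]
  simp

theorem ch_ge (j : J) : ch k m (ge ℤ m j) = ge k m j := ch_single k _

theorem ch_nn (l : ℕ) (j : J) : ch k m (nn l (ge ℤ m j)) = nn l (ge k m j) := by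
  unfold nn
  rw [map_sum]
  simp only [map_pow, ch_ge]

theorem ch_xx (i j : J) : ch k m (xx (ge ℤ m i) (ge ℤ m j)) = xx (ge k m i) (ge k m j) := by
  unfold xx
  rw [map_sub, map_add, map_mul, map_mul, map_one, ch_ge, ch_ge]

theorem ch_yy (l : ℕ) (j : J) : ch k m (yy l (ge ℤ m j)) = yy l (ge k m j) := by
  unfold yy
  rw [map_add, map_sub, ch_nn, ch_ge, map_natCast]

end Ch

section Mat

variable {J : Type} {m : J → ℕ} (k : Type) [CommRing k] {n X : Type} [Fintype n]

theorem matMap_apply (D : Matrix n X (RG ℤ m)) (v : n → RG k m) (c : X) :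
    matMap k D v c = ∑ r, v r * ch k m (D r c) := by
  unfold matMap
  rw [Matrix.vecMulLinear_apply]
  rfl

open Classical in
/-- the matrix of `tau` -/
noncomputable def tauMat {A : Type} [Ring A] (i y : n) (x c : A) : Matrix n n A :=
  fun r s => if s = y then (if r = i then x else if r = y then c else 0)
    else (if r = s then 1 else 0)

theorem matMap_tauMat [DecidableEq n] {i y : n} (hiy : i ≠ y) (x c : RG ℤ m)
    (D : Matrix n X (RG ℤ m)) :
    matMap k (tauMat i y x c * D) = matMap k D ∘ₗ tau i y (ch k m x) (ch k m c) := by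
  refine LinearMap.ext fun v => ?_
  show Matrix.vecMul v ((tauMat i y x c * D).map (ch k m))
    = Matrix.vecMul (tau i y (ch k m x) (ch k m c) v) (D.map (ch k m))
  rw [Matrix.map_mul, ← Matrix.vecMul_vecMul]
  congr 1
  funext s
  show ∑ r, v r * ch k m (tauMat i y x c r s) = _
  unfold tauMat
  by_cases hs : s = y
  · subst hs
    rw [tau_self, Finset.sum_eq_add i s hiy]
    · rw [if_pos rfl, if_pos rfl, if_pos rfl, if_neg (Ne.symm hiy), if_pos rfl]
    · intro r _ hr
      rw [if_pos rfl, if_neg hr.1, if_neg hr.2, map_zero, mul_zero]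
    · intro h
      exact absurd (Finset.mem_univ _) h
    · intro h
      exact absurd (Finset.mem_univ _) h
  · rw [tau_ne _ _ _ _ _ hs, Finset.sum_eq_single s]
    · rw [if_neg hs, if_pos rfl, map_one, mul_one]
    · intro r _ hr
      rw [if_neg hs, if_neg hr, map_zero, mul_zero]
    · intro h
      exact absurd (Finset.mem_univ _) h

end Mat

section Std

variable {J : Type} {m : J → ℕ} {Y n : Type} [Fintype J] [Fintype Y] [Fintype n]
variable (e : n ≃ {j : J // m j ≠ 0} ⊕ Y) (v : Y → J → RG ℤ m)

omit [Fintype J] [Fintype Y] [Fintype n] in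
open Classical in
theorem stdM_inl (i : {j : J // m j ≠ 0}) :
    stdM e v (e.symm (Sum.inl i)) = Sum.elim (Pi.single i.1 (nn (m i.1) (ge ℤ m i.1))) 0 := by
  unfold stdM
  rw [Equiv.apply_symm_apply]

omit [Fintype J] [Fintype Y] [Fintype n] in
open Classical in
theorem stdM_inr (y : Y) :
    stdM e v (e.symm (Sum.inr y)) = Sum.elim (-v y) (Pi.single y 1) := by
  unfold stdM
  rw [Equiv.apply_symm_apply]

theorem sum_e (k : Type) [CommRing k] (f : n → RG k m) :
    ∑ r, f r = ∑ i, f (e.symm (Sum.inl i)) + ∑ y, f (e.symm (Sum.inr y)) := by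
  rw [← e.symm.sum_comp, Fintype.sum_sum_type]

variable (k : Type) [CommRing k]

theorem std_inr (u : n → RG k m) (y : Y) :
    matMap k (stdM e v) u (Sum.inr y) = u (e.symm (Sum.inr y)) := by
  classical
  rw [matMap_apply, sum_e e]
  simp only [stdM_inl, stdM_inr, Sum.elim_inr, Pi.zero_apply, map_zero, mul_zero,
    Finset.sum_const_zero, zero_add]
  rw [Finset.sum_eq_single y]
  · rw [Pi.single_eq_same, map_one, mul_one]
  · intro y' _ hy
    rw [Pi.single_eq_of_ne (Ne.symm hy), map_zero, mul_zero]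
  · intro h
    exact absurd (Finset.mem_univ _) h

theorem std_inl (u : n → RG k m) (i : {j : J // m j ≠ 0}) :
    matMap k (stdM e v) u (Sum.inl i.1) = u (e.symm (Sum.inl i)) * nn (m i.1) (ge k m i.1)
      - ∑ y, u (e.symm (Sum.inr y)) * ch k m (v y i.1) := by
  classical
  rw [matMap_apply, sum_e e]
  simp only [stdM_inl, stdM_inr, Sum.elim_inl, Pi.neg_apply, map_neg, mul_neg,
    Finset.sum_neg_distrib]
  rw [Finset.sum_eq_single i]
  · rw [Pi.single_eq_same, ch_nn, ← sub_eq_add_neg]
  · intro i' _ hi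
    rw [Pi.single_eq_of_ne (fun h => hi (Subtype.ext h.symm)), map_zero, mul_zero]
  · intro h
    exact absurd (Finset.mem_univ _) h

theorem std_inl0 (u : n → RG k m) {j : J} (hj : m j = 0) :
    matMap k (stdM e v) u (Sum.inl j) = - ∑ y, u (e.symm (Sum.inr y)) * ch k m (v y j) := by
  classical
  rw [matMap_apply, sum_e e]
  simp only [stdM_inl, stdM_inr, Sum.elim_inl, Pi.neg_apply, map_neg, mul_neg,
    Finset.sum_neg_distrib]
  rw [Finset.sum_eq_zero, zero_add]
  intro i _
  rw [Pi.single_eq_of_ne, map_zero, mul_zero]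
  intro h
  exact i.2 (h ▸ hj)

variable {v}

omit [Fintype Y] in
theorem hv_k {w : Y → Gp m}
    (hv : ∀ y, bd1 ℤ (gen m) (v y) = MonoidAlgebra.single (w y) 1 - 1) (y : Y) :
    ∑ j, ch k m (v y j) * (ge k m j - 1) = MonoidAlgebra.single (w y) 1 - 1 := by
  have h : ∑ j, v y j * (ge ℤ m j - 1) = MonoidAlgebra.single (w y) 1 - 1 := hv y
  have h2 := congrArg (ch k m) h
  rw [map_sum, map_sub, map_one, ch_single] at h2
  simp only [map_mul, map_sub, map_one, ch_ge] at h2
  exact h2

theorem bd1_gX (w : Y → Gp m) (x : J ⊕ Y → RG k m) :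
    bd1 k (gX m w) x = ∑ j, x (Sum.inl j) * (ge k m j - 1)
      + ∑ y, x (Sum.inr y) * (MonoidAlgebra.single (w y) 1 - 1) := by
  show ∑ z, x z * (MonoidAlgebra.single (gX m w z) 1 - 1) = _
  rw [Fintype.sum_sum_type]
  rfl

/-- exactness of the standard complex -/
theorem isBd2_std {w : Y → Gp m}
    (hv : ∀ y, bd1 ℤ (gen m) (v y) = MonoidAlgebra.single (w y) 1 - 1) :
    IsBd2 k (gX m w) (matMap k (stdM e v)) := by
  classical
  unfold IsBd2
  apply le_antisymm
  · rintro _ ⟨u, rfl⟩
    rw [LinearMap.mem_ker, bd1_gX]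
    have h1 : ∀ j, matMap k (stdM e v) u (Sum.inl j) * (ge k m j - 1)
        = - ∑ y, u (e.symm (Sum.inr y)) * (ch k m (v y j) * (ge k m j - 1)) := by
      intro j
      by_cases hj : m j = 0
      · rw [std_inl0 e v k u hj, neg_mul, Finset.sum_mul]
        simp only [mul_assoc]
      · have h := std_inl e v k u ⟨j, hj⟩
        simp only at h
        rw [h, sub_mul, mul_assoc, nn_am1 (ge_pow j), mul_zero, zero_sub, Finset.sum_mul]
        simp only [mul_assoc]
    simp only [h1, std_inr]
    rw [Finset.sum_neg_distrib, Finset.sum_comm]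
    have h2 : ∀ y, ∑ j, u (e.symm (Sum.inr y)) * (ch k m (v y j) * (ge k m j - 1))
        = u (e.symm (Sum.inr y)) * (MonoidAlgebra.single (w y) 1 - 1) := by
      intro y
      rw [← Finset.mul_sum, hv_k k hv]
    simp only [h2]
    exact neg_add_cancel _
  · intro x hx
    rw [LinearMap.mem_ker, bd1_gX] at hx
    set x' : J → RG k m := fun j => x (Sum.inl j) + ∑ y, x (Sum.inr y) * ch k m (v y j) with hx'
    have h1 : ∑ j, x' j * (ge k m j - 1) = 0 := by
      rw [← hx]
      simp only [hx', add_mul]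
      rw [Finset.sum_add_distrib]
      congr 1
      simp only [Finset.sum_mul]
      rw [Finset.sum_comm]
      refine Finset.sum_congr rfl fun y _ => ?_
      rw [← hv_k k hv y, Finset.mul_sum]
      simp only [mul_assoc]
    have h2 : ∀ i : {j : J // m j ≠ 0}, ∃ p, x' i.1 = p * nn (m i.1) (ge k m i.1) :=
      fun i => ann_am1 i.2 _ (fox_kernel_ne x' h1 i.1 i.2)
    choose p hp using h2
    refine ⟨fun r => Sum.elim p (fun y => x (Sum.inr y)) (e r), ?_⟩
    funext c
    rcases c with j | y
    · by_cases hj : m j = 0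
      · rw [std_inl0 e v k _ hj]
        have h3 := fox_kernel_zero x' h1 j hj
        simp only [hx'] at h3
        simp only [Equiv.apply_symm_apply, Sum.elim_inr]
        exact (eq_neg_of_add_eq_zero_left h3).symm
      · have h := std_inl e v k (fun r => Sum.elim p (fun y => x (Sum.inr y)) (e r)) ⟨j, hj⟩
        simp only [Equiv.apply_symm_apply, Sum.elim_inl, Sum.elim_inr] at h
        rw [h, ← hp ⟨j, hj⟩]
        simp only [hx']
        abel
    · rw [std_inr]
      simp only [Equiv.apply_symm_apply, Sum.elim_inr]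

/-- the condition used in `Maps` -/
theorem std_single [DecidableEq n] (i : {j : J // m j ≠ 0}) (r : RG k m)
    (hr : r * nn (m i.1) (ge k m i.1) = 0) :
    matMap k (stdM e v) (Pi.single (e.symm (Sum.inl i)) r) = 0 := by
  have hy : ∀ y, (Pi.single (e.symm (Sum.inl i)) r : n → RG k m) (e.symm (Sum.inr y)) = 0 := by
    intro y
    rw [Pi.single_eq_of_ne]
    intro h
    have := e.symm.injective h
    exact absurd this Sum.inr_ne_inl
  funext c
  rcases c with j | y
  · by_cases hj : m j = 0
    · rw [std_inl0 e v k _ hj]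
      simp
    · have h := std_inl e v k (Pi.single (e.symm (Sum.inl i)) r) ⟨j, hj⟩
      simp only at h
      rw [h]
      simp only [hy, zero_mul, Finset.sum_const_zero, sub_zero, Pi.zero_apply]
      by_cases hij : i = ⟨j, hj⟩
      · subst hij
        rw [Pi.single_eq_same]
        exact hr
      · rw [Pi.single_eq_of_ne, zero_mul]
        intro h'
        exact hij (Sum.inl.inj (e.symm.injective h')).symm
  · rw [std_inr, hy]
    rfl

end Std

end ExoGen
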