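import Pool.Agent.Lib.MP_2d4659_gt.EX.Defs
import Pool.Agent.Lib.MP_2d4659_gt.EX.Ring2

/-!
# The twist of a map by a two by two matrix

`n` is a finite index set, `i ≠ y` two indices, and `tau i y x c : A^n → A^n` replaces the `y`-th
coordinate `v_y` of `v` by `v_i x + v_y c`.  For a linear map `d` on `A^n` we compare `d` and
`d ∘ tau`.
-/

namespace ExoGen

variable {A : Type} [Ring A] {n : Type} [DecidableEq n]

/-- replace the coordinate `v y` of `v` by `v i * x + v y * c` -/
def tau (i y : n) (x c : A) : (n → A) →ₗ[A] (n → A) where
  toFun v := Function.update v y (v i * x + v y * c)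
  map_add' v w := by
    ext r
    by_cases hr : r = y
    · subst hr
      simp [add_mul]
      abel
    · simp [Function.update_of_ne hr]
  map_smul' a v := by
    ext r
    by_cases hr : r = y
    · subst hr
      simp [mul_add, mul_assoc]
    · simp [Function.update_of_ne hr]

theorem tau_self (i y : n) (x c : A) (v : n → A) : tau i y x c v y = v i * x + v y * c :=
  Function.update_self _ _ _

theorem tau_ne (i y : n) (x c : A) (v : n → A) {r : n} (hr : r ≠ y) : tau i y x c v r = v r :=
  Function.update_of_ne hr _ _

/-- the equivalence `tau i y x c` for a unit `c` -/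
def tauE {i y : n} (hiy : i ≠ y) (x : A) (u : Aˣ) : (n → A) ≃ₗ[A] (n → A) :=
  LinearEquiv.ofLinearMap (tau i y x u) (tau i y (-(x * ↑u⁻¹)) ↑u⁻¹)
    (by
      ext1 v
      funext r
      show tau i y x u (tau i y (-(x * ↑u⁻¹)) ↑u⁻¹ v) r = v r
      by_cases hr : r = y
      · subst hr
        rw [tau_self, tau_self, tau_ne _ _ _ _ _ hiy, add_mul, mul_assoc (v r), Units.inv_mul,
          mul_one, mul_neg, neg_mul, ← mul_assoc (v i), mul_assoc (v i * x), Units.inv_mul,
          mul_one, ← add_assoc, add_neg_cancel, zero_add]
      · rw [tau_ne _ _ _ _ _ hr, tau_ne _ _ _ _ _ hr])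
    (by
      ext1 v
      funext r
      show tau i y (-(x * ↑u⁻¹)) ↑u⁻¹ (tau i y x u v) r = v r
      by_cases hr : r = y
      · subst hr
        rw [tau_self, tau_self, tau_ne _ _ _ _ _ hiy, add_mul, mul_assoc (v r), Units.mul_inv,
          mul_one, mul_neg, ← mul_assoc (v i), ← add_assoc, neg_add_cancel, zero_add]
      · rw [tau_ne _ _ _ _ _ hr, tau_ne _ _ _ _ _ hr])

theorem tauE_apply {i y : n} (hiy : i ≠ y) (x : A) (u : Aˣ) (v : n → A) :
    tauE hiy x u v = tau i y x u v := rfl

variable {M : Type} [AddCommGroup M] [Module A M]

/-- the case where `c` is a unit -/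
theorem iso_of_unit {i y : n} (hiy : i ≠ y) (x c : A) (hc : IsUnit c)
    (d : (n → A) →ₗ[A] M) :
    ∃ h : (n → A) ≃ₗ[A] (n → A), d ∘ₗ tau i y x c = d ∘ₗ h.toLinearMap := by
  obtain ⟨u, rfl⟩ := hc
  exact ⟨tauE hiy x u, rfl⟩

/-- the case where there is an idempotent -/
theorem iso_of_idem {i y : n} (hiy : i ≠ y) (x c e : A) (hee : e * e = e)
    (hce : c * e = 0) (hexe : e * x * e = e) (hu : IsUnit (c + e))
    (d : (n → A) →ₗ[A] M) (hd : ∀ r : A, d (Pi.single i (r * e)) = 0) :
    ∃ h : (n → A) ≃ₗ[A] (n → A), d ∘ₗ tau i y x c = d ∘ₗ h.toLinearMap := by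
  -- `c + e x` is a unit
  have hu2 : IsUnit (1 + e * x * (1 - e)) := by
    have h0 : (1 - e) * e = 0 := by rw [sub_mul, one_mul, hee, sub_self]
    have h1 : (e * x * (1 - e)) * (e * x * (1 - e)) = 0 := by
      have : (e * x * (1 - e)) * (e * x * (1 - e)) = e * x * ((1 - e) * e) * x * (1 - e) := by
        noncomm_ring
      rw [this, h0]
      simp
    generalize e * x * (1 - e) = z at h1
    refine ⟨⟨1 + z, 1 - z, ?_, ?_⟩, rfl⟩
    · have : (1 + z) * (1 - z) = 1 - z * z := by noncomm_ring
      rw [this, h1, sub_zero]
    · have : (1 - z) * (1 + z) = 1 - z * z := by noncomm_ring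
      rw [this, h1, sub_zero]
  have hu3 : IsUnit (c + e * x) := by
    have : (c + e) * (1 + e * x * (1 - e)) = c + e * x := by
      have e1 : (c + e) * (1 + e * x * (1 - e))
          = c + e + (c * e) * x * (1 - e) + (e * e) * x - (e * e) * x * e := by noncomm_ring
      rw [e1, hce, hee, hexe]
      noncomm_ring
    rw [← this]
    exact hu.mul hu2
  obtain ⟨u, hu⟩ := hu3
  set M1 : (n → A) ≃ₗ[A] (n → A) := tauE (Ne.symm hiy) (-e) 1 with hM1
  refine ⟨(M1.trans (tauE hiy x u)).trans M1, ?_⟩
  ext1 v
  show d (tau i y x c v) = d (M1 (tauE hiy x u (M1 v)))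
  have h1 : M1 (tauE hiy x u (M1 v)) = tau i y x c v
      - Pi.single i ((v y + v i * x) * e) := by
    have hMi : ∀ w : n → A, M1 w i = w i - w y * e := by
      intro w
      show tau y i (-e) ((1 : Aˣ) : A) w i = _
      rw [tau_self, Units.val_one, mul_one, mul_neg]
      abel
    have hMr : ∀ (w : n → A) (r : n), r ≠ i → M1 w r = w r := by
      intro w r hr
      exact tau_ne _ _ _ _ _ hr
    funext r
    by_cases hri : r = i
    · subst hri
      rw [hMi, tauE_apply, tau_ne _ _ _ _ _ hiy, tau_self, hMi, hMr _ _ (Ne.symm hiy),
        Pi.sub_apply, Pi.single_eq_same, tau_ne _ _ _ _ _ hiy, hu]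
      have : ((v r - v y * e) * x + v y * (c + e * x)) * e
          = v r * x * e + v y * (c * e) := by noncomm_ring
      rw [this, hce]
      noncomm_ring
    · rw [hMr _ _ hri, tauE_apply, Pi.sub_apply, Pi.single_eq_of_ne hri, sub_zero]
      by_cases hry : r = y
      · subst hry
        rw [tau_self, tau_self, hMi, hMr _ _ (Ne.symm hiy), hu]
        noncomm_ring
      · rw [tau_ne _ _ _ _ _ hry, tau_ne _ _ _ _ _ hry, hMr _ _ hri]
  rw [h1, map_sub, hd, sub_zero]

/-- the stable isomorphism -/
theorem iso_stable {i y : n} (hiy : i ≠ y) (x c s t : A) (hst : s * x + t * c = 1)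
    (d : (n → A) →ₗ[A] M) (hd : ∀ r : A, d (Pi.single i (r * s)) = 0) :
    ∃ h : (Option n → A) ≃ₗ[A] (Option n → A),
      zc (d ∘ₗ tau i y x c) = zc d ∘ₗ h.toLinearMap := by
  let F : (Option n → A) → (Option n → A) := fun v r =>
    match r with
    | none => v (some y) - v none * t
    | some r => if r = y then v (some i) * x + v (some y) * c else
        if r = i then v (some i) - v none * s else v (some r)
  let Z : (Option n → A) → A := fun v => v (some y) - v (some i) * x - v none * c
  let Gv : (Option n → A) → (Option n → A) := fun v r =>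
    match r with
    | none => Z v
    | some r => if r = y then v none + Z v * t else
        if r = i then v (some i) + Z v * s else v (some r)
  have Fn : ∀ v, F v none = v (some y) - v none * t := fun v => rfl
  have Fy : ∀ v, F v (some y) = v (some i) * x + v (some y) * c := fun v => by
    show (if y = y then _ else _) = _
    rw [if_pos rfl]
  have Fi : ∀ v, F v (some i) = v (some i) - v none * s := fun v => by
    show (if i = y then _ else if i = i then _ else _) = _
    rw [if_neg hiy, if_pos rfl]
  have Fr : ∀ v r, r ≠ y → r ≠ i → F v (some r) = v (some r) := fun v r h1 h2 => by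
    show (if r = y then _ else if r = i then _ else _) = _
    rw [if_neg h1, if_neg h2]
  have Gn : ∀ v, Gv v none = Z v := fun v => rfl
  have Gy : ∀ v, Gv v (some y) = v none + Z v * t := fun v => by
    show (if y = y then _ else _) = _
    rw [if_pos rfl]
  have Gi : ∀ v, Gv v (some i) = v (some i) + Z v * s := fun v => by
    show (if i = y then _ else if i = i then _ else _) = _
    rw [if_neg hiy, if_pos rfl]
  have Gr : ∀ v r, r ≠ y → r ≠ i → Gv v (some r) = v (some r) := fun v r h1 h2 => by
    show (if r = y then _ else if r = i then _ else _) = _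
    rw [if_neg h1, if_neg h2]
  have hZF : ∀ v, Z (F v) = v none := by
    intro v
    show F v (some y) - F v (some i) * x - F v none * c = v none
    rw [Fy, Fi, Fn]
    have : v (some i) * x + v (some y) * c - (v (some i) - v none * s) * x
        - (v (some y) - v none * t) * c = v none * (s * x + t * c) := by noncomm_ring
    rw [this, hst, mul_one]
  let h : (Option n → A) ≃ₗ[A] (Option n → A) :=
    { toFun := F
      invFun := Gv
      map_add' := by
        intro v w
        funext r
        rcases r with _ | r
        · rw [Pi.add_apply, Fn, Fn, Fn]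
          simp only [Pi.add_apply]
          noncomm_ring
        · by_cases hy : r = y
          · subst hy
            rw [Pi.add_apply, Fy, Fy, Fy]
            simp only [Pi.add_apply]
            noncomm_ring
          · by_cases hi : r = i
            · subst hi
              rw [Pi.add_apply, Fi, Fi, Fi]
              simp only [Pi.add_apply]
              noncomm_ring
            · rw [Pi.add_apply, Fr _ _ hy hi, Fr _ _ hy hi, Fr _ _ hy hi, Pi.add_apply]
      map_smul' := by
        intro a v
        funext r
        rcases r with _ | r
        · rw [RingHom.id_apply, Pi.smul_apply, Fn, Fn]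
          simp only [Pi.smul_apply, smul_eq_mul]
          noncomm_ring
        · by_cases hy : r = y
          · subst hy
            rw [RingHom.id_apply, Pi.smul_apply, Fy, Fy]
            simp only [Pi.smul_apply, smul_eq_mul]
            noncomm_ring
          · by_cases hi : r = i
            · subst hi
              rw [RingHom.id_apply, Pi.smul_apply, Fi, Fi]
              simp only [Pi.smul_apply, smul_eq_mul]
              noncomm_ring
            · rw [RingHom.id_apply, Pi.smul_apply, Fr _ _ hy hi, Fr _ _ hy hi, Pi.smul_apply]
      left_inv := by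
        intro v
        funext r
        rcases r with _ | r
        · rw [Gn, hZF]
        · by_cases hy : r = y
          · subst hy
            rw [Gy, hZF, Fn]
            abel
          · by_cases hi : r = i
            · subst hi
              rw [Gi, hZF, Fi]
              abel
            · rw [Gr _ _ hy hi, Fr _ _ hy hi]
      right_inv := by
        intro v
        funext r
        rcases r with _ | r
        · rw [Fn, Gy, Gn]
          abel
        · by_cases hy : r = y
          · subst hy
            rw [Fy, Gi, Gy]
            have : (v (some i) + Z v * s) * x + (v none + Z v * t) * c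
                = v (some i) * x + v none * c + Z v * (s * x + t * c) := by noncomm_ring
            rw [this, hst, mul_one]
            show _ + (v (some r) - v (some i) * x - v none * c) = v (some r)
            abel
          · by_cases hi : r = i
            · subst hi
              rw [Fi, Gi, Gn]
              abel
            · rw [Fr _ _ hy hi, Gr _ _ hy hi] }
  refine ⟨h, ?_⟩
  ext1 v
  show d (tau i y x c (v ∘ some)) = d (F v ∘ some)
  have h1 : F v ∘ some = tau i y x c (v ∘ some) - Pi.single i (v none * s) := by
    funext r
    by_cases hy : r = y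
    · subst hy
      rw [Pi.sub_apply, Pi.single_eq_of_ne (Ne.symm hiy), sub_zero, tau_self]
      exact Fy v
    · by_cases hi : r = i
      · subst hi
        rw [Pi.sub_apply, Pi.single_eq_same, tau_ne _ _ _ _ _ hy]
        exact Fi v
      · rw [Pi.sub_apply, Pi.single_eq_of_ne hi, sub_zero, tau_ne _ _ _ _ _ hy]
        exact Fr v r hy hi
  rw [h1, map_sub, hd, sub_zero]

/-- the images agree -/
theorem range_tau {i y : n} (hiy : i ≠ y) (x c s t : A) (hst : s * x + t * c = 1)
    (d : (n → A) →ₗ[A] M) (hd : ∀ r : A, d (Pi.single i (r * s)) = 0) :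
    LinearMap.range (d ∘ₗ tau i y x c) = LinearMap.range d := by
  apply le_antisymm
  · exact LinearMap.range_comp_le_range _ _
  · rintro _ ⟨v, rfl⟩
    set z : A := v y - v i * x with hz
    refine ⟨Function.update (Function.update v y (z * t)) i (v i + z * s), ?_⟩
    show d (tau i y x c _) = d v
    have h1 : tau i y x c (Function.update (Function.update v y (z * t)) i (v i + z * s))
        = v + Pi.single i (z * s) := by
      funext r
      by_cases hy : r = y
      · subst hy
        rw [tau_self, Function.update_self, Function.update_of_ne (Ne.symm hiy),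
          Function.update_self, Pi.add_apply, Pi.single_eq_of_ne (Ne.symm hiy), add_zero]
        have : (v i + z * s) * x + z * t * c = v i * x + z * (s * x + t * c) := by noncomm_ring
        rw [this, hst, hz]
        noncomm_ring
      · rw [tau_ne _ _ _ _ _ hy]
        by_cases hi : r = i
        · subst hi
          rw [Function.update_self, Pi.add_apply, Pi.single_eq_same]
        · rw [Function.update_of_ne hi, Function.update_of_ne hy, Pi.add_apply,
            Pi.single_eq_of_ne hi, add_zero]
    rw [h1, map_add, hd, add_zero]

end ExoGen
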