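import Pool.Agent.Lib.MP_2d4659_gt.EX.Main

/-!
# The kernels are not isomorphic, and the final theorem
-/

set_option autoImplicit false

namespace ExoGen

open FP

variable {J : Type} {m : J → ℕ} {Y n : Type} [Fintype J] [Fintype Y] [Fintype n]

theorem std_ker (e : n ≃ {j : J // m j ≠ 0} ⊕ Y) (v : Y → J → RG ℤ m) (k : Type) [CommRing k]
    (u : n → RG k m) (h : matMap k (stdM e v) u = 0) :
    (∀ i, u (e.symm (Sum.inl i)) * nn (m i.1) (ge k m i.1) = 0) ∧
      ∀ y, u (e.symm (Sum.inr y)) = 0 := by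
  have hy : ∀ y, u (e.symm (Sum.inr y)) = 0 := by
    intro y
    rw [← std_inr e v k u y, h]
    rfl
  refine ⟨fun i => ?_, hy⟩
  have h1 := std_inl e v k u i
  simp only [hy, zero_mul, Finset.sum_const_zero, sub_zero] at h1
  rw [← h1, h]
  rfl

theorem no_kernel_iso [DecidableEq n] (e : n ≃ {j : J // m j ≠ 0} ⊕ Y) (v : Y → J → RG ℤ m)
    (i0 : {j : J // m j ≠ 0}) (h3 : 3 ≤ m i0.1) (j1 : J) (h1 : m j1 = 0) (y0 : Y) :
    IsEmpty (LinearMap.ker (matMap ℤ (stdM e v)) ≃ₗ[RG ℤ m]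
      LinearMap.ker (matMap ℤ (stdM e v) ∘ₗ
        tau (e.symm (Sum.inl i0)) (e.symm (Sum.inr y0)) (xx (ge ℤ m i0.1) (ge ℤ m j1))
          (yy (m i0.1) (ge ℤ m i0.1)))) := by
  classical
  refine ⟨fun θ => ?_⟩
  obtain ⟨O, _, _, _, c, hc, D, ζ, hζg, hs, hζ, hs1, hs2, hD, hu, hne⟩ := exists_O (m i0.1) h3
  have hj : j1 ≠ i0.1 := by
    intro h
    exact i0.2 (h ▸ h1)
  set i : n := e.symm (Sum.inl i0) with hi
  set y : n := e.symm (Sum.inr y0) with hy
  have hiy : i ≠ y := by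
    intro h
    exact absurd (e.symm.injective h) Sum.inl_ne_inr
  set d := matMap ℤ (stdM e v) with hd
  set a := ge ℤ m i0.1 with ha
  set b := ge ℤ m j1 with hb
  have hag : a ^ m i0.1 = 1 := ge_pow i0.1
  set x := xx a b with hx
  set cc := yy (m i0.1) a with hcc
  set ρ := rho (m := m) hc D ζ hζ i0.1 j1 hζg h1 with hρ
  -- the generators of the kernel of `d`
  have hE : ∀ l : {j : J // m j ≠ 0},
      (Pi.single (e.symm (Sum.inl l)) (ge ℤ m l.1 - 1) : n → RG ℤ m) ∈ LinearMap.ker d := by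
    intro l
    rw [LinearMap.mem_ker]
    exact std_single e ℤ l _ (am1_nn (ge_pow l.1))
  set E : {j : J // m j ≠ 0} → LinearMap.ker d := fun l => ⟨_, hE l⟩ with hEd
  have hNE : ∀ l, nn (m l.1) (ge ℤ m l.1) • E l = 0 := by
    intro l
    apply Subtype.ext
    show nn (m l.1) (ge ℤ m l.1) • (Pi.single (e.symm (Sum.inl l)) (ge ℤ m l.1 - 1)
      : n → RG ℤ m) = 0
    rw [← Pi.single_smul, smul_eq_mul, nn_am1 (ge_pow l.1), Pi.single_zero]
  set w : {j : J // m j ≠ 0} → n → RG ℤ m := fun l => (θ (E l)).1 with hw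
  have hNw : ∀ l, nn (m l.1) (ge ℤ m l.1) * w l i = 0 := by
    intro l
    have h := congrArg (fun z => (θ z).1 i) (hNE l)
    simp only [map_smul, map_zero] at h
    exact h
  have hgen : ∀ V : n → RG ℤ m, V ∈ LinearMap.ker (d ∘ₗ tau i y x cc) →
      ∃ r : {j : J // m j ≠ 0} → RG ℤ m, V i = ∑ l, r l * w l i := by
    intro V hV
    set U := θ.symm ⟨V, hV⟩ with hU
    obtain ⟨hU1, hU2⟩ := std_ker e v ℤ U.1 U.2
    have hU3 : ∀ l : {j : J // m j ≠ 0}, ∃ r, U.1 (e.symm (Sum.inl l)) = r * (ge ℤ m l.1 - 1) :=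
      fun l => ann_nn l.2 _ (hU1 l)
    choose r hr using hU3
    have hU4 : U = ∑ l, r l • E l := by
      apply Subtype.ext
      rw [Submodule.coe_sum]
      funext s
      rw [Finset.sum_apply]
      obtain ⟨s', rfl⟩ := e.symm.surjective s
      rcases s' with l | y'
      · rw [hr l, Finset.sum_eq_single l]
        · show _ = r l * (Pi.single (e.symm (Sum.inl l)) (ge ℤ m l.1 - 1) : n → RG ℤ m)
            (e.symm (Sum.inl l))
          rw [Pi.single_eq_same]
        · intro l' _ hl'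
          show r l' * (Pi.single (e.symm (Sum.inl l')) (ge ℤ m l'.1 - 1) : n → RG ℤ m)
            (e.symm (Sum.inl l)) = 0
          rw [Pi.single_eq_of_ne, mul_zero]
          intro h
          exact hl' (Sum.inl.inj (e.symm.injective h)).symm
        · intro h
          exact absurd (Finset.mem_univ _) h
      · rw [hU2 y']
        symm
        apply Finset.sum_eq_zero
        intro l' _
        show r l' * (Pi.single (e.symm (Sum.inl l')) (ge ℤ m l'.1 - 1) : n → RG ℤ m)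
          (e.symm (Sum.inr y')) = 0
        rw [Pi.single_eq_of_ne, mul_zero]
        intro h
        exact absurd (e.symm.injective h) Sum.inr_ne_inl
    refine ⟨r, ?_⟩
    have h5 : (⟨V, hV⟩ : LinearMap.ker (d ∘ₗ tau i y x cc)) = ∑ l, r l • θ (E l) := by
      rw [← θ.apply_symm_apply ⟨V, hV⟩, ← hU, hU4, map_sum]
      simp only [map_smul]
    have h6 := congrArg (fun z : LinearMap.ker (d ∘ₗ tau i y x cc) => z.1 i) h5
    simp only [Submodule.coe_sum, Finset.sum_apply] at h6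
    exact h6
  -- the image under `ρ`
  have hρw : ∀ l : {j : J // m j ≠ 0}, l ≠ i0 → ρ (w l i) = 0 := by
    intro l hl
    have h := congrArg ρ (hNw l)
    have hl0 : l.1 ≠ i0.1 := fun h => hl (Subtype.ext h)
    have hl1 : l.1 ≠ j1 := by
      intro h
      exact l.2 (h ▸ h1)
    rw [map_mul, map_zero, hρ, rho_nn_other hl0 hl1, ← hρ] at h
    refine Matrix.ext fun p q => ?_
    have h2 := congrFun (congrFun h p) q
    rw [← Matrix.diagonal_natCast, Matrix.diagonal_mul] at h2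
    exact QS_torsion c hc D l.2 h2
  have hρV : ∀ V : n → RG ℤ m, V ∈ LinearMap.ker (d ∘ₗ tau i y x cc) →
      ∃ r, ρ (V i) = ρ r * ρ (w i0 i) := by
    intro V hV
    obtain ⟨r, hr⟩ := hgen V hV
    refine ⟨r i0, ?_⟩
    rw [hr, map_sum, Finset.sum_eq_single i0]
    · rw [map_mul]
    · intro l _ hl
      rw [map_mul, hρw l hl, mul_zero]
    · intro h
      exact absurd (Finset.mem_univ _) h
  -- the element `w i0`
  have hw0 : w i0 ∈ LinearMap.ker (d ∘ₗ tau i y x cc) := (θ (E i0)).2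
  obtain ⟨hw1, hw2⟩ := std_ker e v ℤ _ (show d (tau i y x cc (w i0)) = 0 from hw0)
  have hw1' := hw1 i0
  have hw2' := hw2 y0
  rw [← hi, tau_ne _ _ _ _ _ hiy] at hw1'
  rw [← hy, tau_self] at hw2'
  have hw3 := hNw i0
  -- elements of the kernel
  have hmem : ∀ p q : RG ℤ m, p * nn (m i0.1) a = 0 → p * x + q * cc = 0 →
      ∃ r, ρ p = ρ r * ρ (w i0 i) := by
    intro p q hp hq
    have hV : (Function.update (Pi.single i p) y q : n → RG ℤ m)
        ∈ LinearMap.ker (d ∘ₗ tau i y x cc) := by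
      rw [LinearMap.mem_ker]
      show d (tau i y x cc _) = 0
      have : tau i y x cc (Function.update (Pi.single i p) y q) = Pi.single i p := by
        funext s
        by_cases hsy : s = y
        · subst hsy
          rw [tau_self, Function.update_self, Function.update_of_ne hiy, Pi.single_eq_same, hq,
            Pi.single_eq_of_ne (Ne.symm hiy)]
        · rw [tau_ne _ _ _ _ _ hsy, Function.update_of_ne hsy]
      rw [this]
      exact std_single e ℤ i0 p hp
    obtain ⟨r, hr⟩ := hρV _ hV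
    refine ⟨r, ?_⟩
    rw [Function.update_of_ne hiy, Pi.single_eq_same] at hr
    exact hr
  -- the entries
  have g1 := congrArg ρ hw1'
  have g2 := congrArg ρ hw3
  have g3 := congrArg ρ hw2'
  rw [map_mul, hρ, rho_nn hs, ← hρ, map_zero] at g1 g2
  rw [map_add, map_mul, map_mul, map_zero] at g3
  have hw10 : ρ (w i0 i) 1 0 = 0 := by
    have h := congrFun (congrFun g1 1) 0
    rw [Matrix.mul_apply, Fin.sum_univ_two] at h
    have h' : ρ (w i0 i) 1 0 * ((m i0.1 : ℕ) : QS c hc D) = 0 := by simpa using h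
    rw [← (Nat.cast_commute _ _).eq] at h'
    exact QS_torsion c hc D i0.2 h'
  have hw01 : ρ (w i0 i) 0 1 = 0 := by
    have h := congrFun (congrFun g2 0) 1
    rw [Matrix.mul_apply, Fin.sum_univ_two] at h
    have h' : ((m i0.1 : ℕ) : QS c hc D) * ρ (w i0 i) 0 1 = 0 := by simpa using h
    exact QS_torsion c hc D i0.2 h'
  obtain ⟨q1, hq1⟩ := mm_mem b hag
  obtain ⟨q2, hq2⟩ := p1_mem (by omega) b hag
  obtain ⟨r1, hr1⟩ := hmem (((mm (m i0.1) : ℤ) : RG ℤ m) * (a - 1)) q1 (by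
    rw [mul_assoc, am1_nn hag, mul_zero]) hq1
  obtain ⟨r2, hr2⟩ := hmem (p1 (m i0.1) a b) q2 (p1_nn b hag) hq2
  have f1 := congrFun (congrFun hr1 1) 1
  have f2 := congrFun (congrFun hr2 1) 1
  have f3 := congrFun (congrFun g3 1) 1
  rw [Matrix.mul_apply, Fin.sum_univ_two, hw01, mul_zero, zero_add] at f1 f2
  rw [Matrix.add_apply, Matrix.mul_apply, Matrix.mul_apply, Fin.sum_univ_two,
    Fin.sum_univ_two, hw10, zero_mul, zero_add, hcc, hρ, rho_yy hs, ← hρ] at f3
  have f3' : ρ (w i0 i) 1 1 * ρ x 1 1 = -(ρ (w i0 y) 1 1) * iota c hc D (ζ - (m i0.1 : ℕ)) := by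
    have f4 : ρ (w i0 i) 1 1 * ρ x 1 1 + ρ (w i0 y) 1 1 * iota c hc D (ζ - (m i0.1 : ℕ)) = 0 := by
      simpa using f3
    rw [neg_mul]
    exact eq_neg_of_add_eq_zero_left f4
  have e1 : ρ (((mm (m i0.1) : ℤ) : RG ℤ m) * (a - 1)) 1 1
      = iota c hc D (((mm (m i0.1) : ℤ) : O) * (ζ - 1)) := rho_am1 _
  have e2 : ρ (p1 (m i0.1) a b) 1 1 = _ := rho_p1 hj
  have e3 : ρ x 1 1 = _ := rho_xx hj
  rw [e1] at f1
  rw [e2] at f2
  rw [e3] at f3'
  exact quat_contra (by omega) ζ hζ hs1 hs2 hD hu hne (ρ (w i0 i) 1 1) (ρ r1 1 1) (ρ r2 1 1)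
    (-(ρ (w i0 y) 1 1)) _ f1 f2 f3'

end ExoGen
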