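import Pool.Agent.Lib.MP_2d4659_gt.EX.Ring2

/-!
# A contradiction in a quaternion order

`O` is a commutative domain with an involution `c`; `QS c hc D` is the ring of the matrices
`[[α, β], [-D c(β), c(α)]]`, i.e. `O + O X` with `X α = c(α) X`, `X ^ 2 = -D`.
-/

open Polynomial

namespace ExoGen

section

variable {O : Type*} [CommRing O]

/-- The ring `O + O X`, `X α = c(α) X`, `X ^ 2 = -D`, as a ring of matrices. -/
def QS (c : O →+* O) (hc : ∀ x, c (c x) = x) (D : ℤ) : Subring (Matrix (Fin 2) (Fin 2) O) where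
  carrier := {M | M 1 1 = c (M 0 0) ∧ M 1 0 = -(D : O) * c (M 0 1)}
  mul_mem' := by
    rintro M N ⟨h1, h2⟩ ⟨h3, h4⟩
    constructor
    · simp only [Matrix.mul_apply, Fin.sum_univ_two, h1, h2, h3, h4, map_add, map_mul, map_neg,
        map_intCast, hc]
      ring
    · simp only [Matrix.mul_apply, Fin.sum_univ_two, h1, h2, h3, h4, map_add, map_mul, map_neg,
        map_intCast, hc]
      ring
  one_mem' := by
    constructor <;> simp
  add_mem' := by
    rintro M N ⟨h1, h2⟩ ⟨h3, h4⟩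
    constructor
    · simp only [Matrix.add_apply, h1, h3, map_add]
    · simp only [Matrix.add_apply, h2, h4, map_add]
      ring
  zero_mem' := by
    constructor <;> simp
  neg_mem' := by
    rintro M ⟨h1, h2⟩
    constructor
    · simp only [Matrix.neg_apply, h1, map_neg]
    · simp only [Matrix.neg_apply, h2, map_neg]
      ring

variable (c : O →+* O) (hc : ∀ x, c (c x) = x) (D : ℤ)

/-- the embedding of `O` -/
def iota : O →+* QS c hc D where
  toFun x := ⟨!![x, 0; 0, c x], by constructor <;> simp⟩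
  map_one' := by
    apply Subtype.ext
    refine Matrix.ext fun i j => ?_
    fin_cases i <;> fin_cases j <;> simp
  map_mul' x y := by
    apply Subtype.ext
    refine Matrix.ext fun i j => ?_
    fin_cases i <;> fin_cases j <;> simp [Matrix.mul_apply, Fin.sum_univ_two]
  map_zero' := by
    apply Subtype.ext
    refine Matrix.ext fun i j => ?_
    fin_cases i <;> fin_cases j <;> simp
  map_add' x y := by
    apply Subtype.ext
    refine Matrix.ext fun i j => ?_
    fin_cases i <;> fin_cases j <;> simp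

/-- the element `X` -/
def XX : QS c hc D := ⟨!![0, 1; -(D : O), 0], by constructor <;> simp⟩

theorem QS_torsion [CharZero O] [IsDomain O] {n : ℕ} (hn : n ≠ 0) {x : QS c hc D}
    (h : (n : QS c hc D) * x = 0) : x = 0 := by
  have h1 := congrArg (fun z : QS c hc D => (z : Matrix (Fin 2) (Fin 2) O)) h
  have h2 : (n : Matrix (Fin 2) (Fin 2) O) * (x : Matrix (Fin 2) (Fin 2) O) = 0 := by
    simpa using h1
  have hn' : (n : O) ≠ 0 := Nat.cast_ne_zero.mpr hn
  apply Subtype.ext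
  refine Matrix.ext fun i j => ?_
  have h3 := congrFun (congrFun h2 i) j
  rw [← Matrix.diagonal_natCast, Matrix.diagonal_mul] at h3
  rcases mul_eq_zero.mp h3 with h4 | h4
  · exact absurd h4 (by exact_mod_cast hn')
  · exact h4

end

section

variable {O : Type*} [CommRing O] [IsDomain O]
variable {c : O →+* O} {hc : ∀ x, c (c x) = x} {D : ℤ}

theorem quat_contra {g : ℕ} (hg : 1 ≤ g) (ζ : O) (hζ : ζ * c ζ = 1)
    (h1 : ∑ i ∈ Finset.range g, c ζ ^ i = 0) (h2 : ∑ i ∈ Finset.range g, (c ζ ^ 2) ^ i = 0)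
    (hD : ∀ α β : O, (α * c α + D * β * c β) ∣
      ((mm g : ℤ) : O) ^ 2 * ((ζ - 1) * (c ζ - 1)) → β = 0)
    (hu : ¬ IsUnit (c ζ - (g : O))) (hne : ζ - (g : O) ≠ 0)
    (ω c1 c2 q : QS c hc D) (κ : O)
    (E1 : iota c hc D (((mm g : ℤ) : O) * (ζ - 1)) = c1 * ω)
    (E2 : iota c hc D ((ζ - 1) * (ζ - g)) * (iota c hc D (((g : O) - 1) * (g : O) ^ g)
      - iota c hc D (ζ - g) * XX c hc D * iota c hc D κ) = c2 * ω)
    (E3 : ω * (1 + iota c hc D ζ * XX c hc D - XX c hc D * iota c hc D ζ)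
      = q * iota c hc D (ζ - g)) : False := by
  obtain ⟨Ω, hΩ1, hΩ2⟩ := ω
  obtain ⟨C1, hC1, hC1'⟩ := c1
  obtain ⟨C2, hC2, hC2'⟩ := c2
  obtain ⟨Q, hQ1, hQ2⟩ := q
  have E1' := congrArg (fun z : QS c hc D => (z : Matrix (Fin 2) (Fin 2) O)) E1
  have E2' := congrArg (fun z : QS c hc D => (z : Matrix (Fin 2) (Fin 2) O) 0 0) E2
  have E3' := congrArg (fun z : QS c hc D => (z : Matrix (Fin 2) (Fin 2) O) 0 0) E3
  have E3'' := congrArg (fun z : QS c hc D => (z : Matrix (Fin 2) (Fin 2) O) 0 1) E3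
  simp only [iota, XX, RingHom.coe_mk, MonoidHom.coe_mk, OneHom.coe_mk, Subring.coe_mul,
    Subring.coe_add, AddSubgroupClass.coe_sub, Subring.coe_one] at E1' E2' E3' E3''
  -- the reduced norm
  have hdet : Ω.det = Ω 0 0 * c (Ω 0 0) + D * Ω 0 1 * c (Ω 0 1) := by
    rw [Matrix.det_fin_two, hΩ1, hΩ2]
    ring
  have hβ : Ω 0 1 = 0 := by
    apply hD (Ω 0 0) (Ω 0 1)
    rw [← hdet]
    have h := congrArg Matrix.det E1'
    rw [Matrix.det_mul, Matrix.det_fin_two_of] at h
    refine ⟨C1.det, ?_⟩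
    rw [mul_comm Ω.det, ← h]
    simp only [map_mul, map_sub, map_one, map_intCast]
    ring
  have hΩ10 : Ω 1 0 = 0 := by rw [hΩ2, hβ, map_zero, mul_zero]
  set α := Ω 0 0 with hα
  set π : O := ζ - (g : O) with hπ
  set π' : O := c ζ - (g : O) with hπ'
  have F2 : (ζ - 1) * π * (((g : O) - 1) * (g : O) ^ g) = C2 0 0 * α := by
    simpa [Matrix.mul_apply, Fin.sum_univ_two, hΩ10, ← hα] using E2'
  have F3 : α = Q 0 0 * π := by
    simpa [Matrix.mul_apply, Fin.sum_univ_two, hβ, hΩ10, ← hα] using E3'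
  have F3' : α * (ζ - c ζ) = Q 0 1 * π' := by
    have h : α * (ζ - c ζ) = Q 0 1 * (c π) := by
      simpa [Matrix.mul_apply, Fin.sum_univ_two, hβ, hΩ10, ← hα] using E3''
    rw [h, hπ, map_sub, map_natCast]
  -- coprimality
  have hM : π' ∣ ((mm g : ℤ) : O) := by
    obtain ⟨q, hq⟩ := root (Np g) g
    rw [Np_eval_m] at hq
    have h := congrArg (aeval (c ζ)) hq
    rw [map_add, map_mul, map_sub, aeval_X, aeval_C', aeval_C', aeval_Np] at h
    have h' : nn g (c ζ) = 0 := h1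
    rw [h'] at h
    refine ⟨-aeval (c ζ) q, ?_⟩
    rw [hπ']
    push_cast at h
    linear_combination -h
  have hM2 : π' ∣ ∑ i ∈ Finset.range g, ((g : O) ^ 2) ^ i := by
    have h3 : π' ∣ (c ζ ^ 2 - (g : O) ^ 2) := by
      refine ⟨c ζ + g, ?_⟩
      rw [hπ']
      ring
    have h4 : ∑ i ∈ Finset.range g, ((g : O) ^ 2) ^ i
        = - ∑ i ∈ Finset.range g, ((c ζ ^ 2) ^ i - ((g : O) ^ 2) ^ i) := by
      rw [Finset.sum_sub_distrib, h2]
      ring
    rw [h4, dvd_neg]
    exact Finset.dvd_sum fun i _ => h3.trans (sub_dvd_pow_sub_pow _ _ i)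
  have hcopg : IsCoprime π' (g : O) := by
    obtain ⟨p, q, hpq⟩ := isCoprime_m g hg
    obtain ⟨r, hr⟩ := hM
    refine ⟨q * r, p, ?_⟩
    have h := congrArg (Int.cast : ℤ → O) hpq
    push_cast at h
    rw [hr] at h
    linear_combination h
  have hcopg1 : IsCoprime π' ((g : O) - 1) := by
    obtain ⟨p, q, hpq⟩ := isCoprime_m1 g
    obtain ⟨r, hr⟩ := hM
    refine ⟨q * r, p, ?_⟩
    have h := congrArg (Int.cast : ℤ → O) hpq
    push_cast at h
    rw [hr] at h
    linear_combination h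
  have hcop2 : IsCoprime π' (1 - (g : O) ^ 2) := by
    -- modulo `g ^ 2 - 1` the sum of the powers of `g ^ 2` is `g`
    have h3 : ∃ s : O, ∑ i ∈ Finset.range g, ((g : O) ^ 2) ^ i
        = g + (1 - (g : O) ^ 2) * s := by
      have h5 : (1 - (g : O) ^ 2) ∣ ∑ i ∈ Finset.range g, (((g : O) ^ 2) ^ i - 1) := by
        refine Finset.dvd_sum fun i _ => ?_
        have h6 := sub_one_dvd_pow_sub_one ((g : O) ^ 2) i
        rw [← neg_sub, neg_dvd]
        exact h6
      rw [Finset.sum_sub_distrib] at h5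
      obtain ⟨s, hs⟩ := h5
      refine ⟨s, ?_⟩
      have h7 : ∑ _i ∈ Finset.range g, (1 : O) = g := by simp
      rw [h7] at hs
      linear_combination hs
    obtain ⟨s, hs⟩ := h3
    obtain ⟨r, hr⟩ := hM2
    -- `g (g) = 1 - (1 - g ^ 2)`
    refine ⟨r * g, 1 - s * g, ?_⟩
    linear_combination (g : O) * hs - (g : O) * hr
  have hcopπ : IsCoprime π' π := by
    obtain ⟨p, q, hpq⟩ := hcop2
    refine ⟨p + q * g, q * c ζ, ?_⟩
    rw [hπ, hπ'] at *
    linear_combination hpq + q * hζ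
  have hcopδ : IsCoprime π' (ζ - c ζ) := by
    obtain ⟨p, q, hpq⟩ := hcop2
    refine ⟨p + q * (ζ + g), q * g, ?_⟩
    rw [hπ'] at *
    linear_combination hpq + q * hζ
  have hcopζ : IsCoprime π' (ζ - 1) := by
    -- `ζ - 1` divides `g`
    have h3 : (ζ - 1) ∣ (g : O) := by
      have h4 : (c ζ - 1) ∣ ∑ i ∈ Finset.range g, (c ζ ^ i - 1) :=
        Finset.dvd_sum fun i _ => sub_one_dvd_pow_sub_one (c ζ) i
      rw [Finset.sum_sub_distrib, h1] at h4
      have h7 : ∑ _i ∈ Finset.range g, (1 : O) = g := by simp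
      rw [h7, zero_sub, dvd_neg] at h4
      have h5 : (ζ - 1) ∣ (c ζ - 1) := by
        refine ⟨-c ζ, ?_⟩
        linear_combination hζ
      exact h5.trans h4
    exact hcopg.of_isCoprime_of_dvd_right h3
  -- conclusion
  have h3 : π' ∣ α := by
    exact hcopδ.dvd_of_dvd_mul_right ⟨Q 0 1, by rw [F3']; ring⟩
  have h4 : π' ∣ Q 0 0 := by
    refine hcopπ.dvd_of_dvd_mul_right ?_
    rw [← F3]
    exact h3
  obtain ⟨r, hr⟩ := h4
  have h5 : π' ∣ (ζ - 1) * (((g : O) - 1) * (g : O) ^ g) := by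
    refine ⟨C2 0 0 * r, ?_⟩
    apply mul_right_cancel₀ hne
    rw [F3, hr] at F2
    linear_combination F2
  have h6 : IsCoprime π' ((ζ - 1) * (((g : O) - 1) * (g : O) ^ g)) :=
    hcopζ.mul_right (hcopg1.mul_right hcopg.pow_right)
  exact hu (h6.isUnit_of_dvd' dvd_rfl h5)

end

end ExoGen
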